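import Pool.Agent.LibEP66.GDefs

/-!
[EP66 B1] determinants of block matrices. `Mᵀ N` is zero between different colours (`μ a ≠ μ b`), so
`Matrix.BlockTriangular` for `μ` (and its transpose): `Matrix.BlockTriangular.det_fintype` gives the product over
the colours of `det (toSquareBlock _ μ j)`, and the block is `(blk j M)ᵀ * blk j N` up to the bijection `ix μ j`
(`Matrix.det_submatrix_equiv_self`); the sum over `x : Fin r` is a sum over `κ x = j`, i.e. over `Fin (num κ j)`.
`det_bd`: the same with the columns `Fin D ⊕ Unit` and the colours `Sum.elim μ (fun _ => i)`; for `j ≠ i` the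
block is the one of `det_blk`, for `j = i` it is the bordered matrix of the blocks (bijection
`{a // Sum.elim μ (fun _ => i) a = i} ≃ {a // μ a = i} ⊕ Unit`). `glue`, `vglue`: direct.
-/

open scoped Classical

namespace Pool.Agent.LibEP66

open Pool.Agent.LibAC34

variable {s r D : ℕ} {κ : Fin r → Fin s} {μ : Fin D → Fin s}

/-- a sum supported in the colour `j` -/
lemma B1_sum {j : Fin s} (f : Fin r → ℤ) (hf : ∀ x, κ x ≠ j → f x = 0) :
    ∑ x, f x = ∑ y, f (ix κ j y).1 := by
  rw [Equiv.sum_comp (ix κ j) (fun y : {x // κ x = j} => f y.1),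
    ← Finset.sum_subtype (Finset.univ.filter fun x => κ x = j) (by intro x; simp) f,
    Finset.sum_filter]
  refine Finset.sum_congr rfl fun x _ => ?_
  split_ifs with h
  · rfl
  · exact hf x h

/-- the product formula for a matrix which is zero between different colours -/
lemma B1_det {ι : Type} [Fintype ι] [DecidableEq ι] (A : Matrix ι ι ℤ) (c : ι → Fin s)
    (h : ∀ a b, c a ≠ c b → A a b = 0) : A.det = ∏ j, (A.toSquareBlock c j).det := by
  refine Matrix.BlockTriangular.det_fintype (b := c) ?_
  intro a b hab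
  exact h a b hab.ne'

lemma B1_blk {M N : Matrix (Fin r) (Fin D) ℤ} (hM : Blk κ μ M) (j : Fin s)
    (a b : Fin (num μ j)) :
    ∑ x, M x (ix μ j a).1 * N x (ix μ j b).1 =
      ((blk κ μ j M).transpose * blk κ μ j N) a b := by
  rw [B1_sum (κ := κ) (j := j) (fun x => M x (ix μ j a).1 * N x (ix μ j b).1)]
  · rfl
  · intro x hx
    rw [hM x _ (by rw [(ix μ j a).2]; exact fun h => hx h.symm), zero_mul]

theorem det_blk {M N : Matrix (Fin r) (Fin D) ℤ} (hM : Blk κ μ M) (hN : Blk κ μ N) :
    (M.transpose * N).det = ∏ j, ((blk κ μ j M).transpose * blk κ μ j N).det := by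
  rw [B1_det (M.transpose * N) μ]
  · refine Finset.prod_congr rfl fun j _ => ?_
    rw [← Matrix.det_submatrix_equiv_self (ix μ j)]
    congr 1
    ext a b
    rw [← B1_blk hM j a b]
    rfl
  · intro a b hab
    rw [Matrix.mul_apply]
    refine Finset.sum_eq_zero fun x _ => ?_
    rw [Matrix.transpose_apply]
    by_cases h : μ a = κ x
    · rw [hN x b (fun h' => hab (h.trans h'.symm)), mul_zero]
    · rw [hM x a h, zero_mul]

lemma B1_bd_zero {M : Matrix (Fin r) (Fin D) ℤ} (hM : Blk κ μ M) {i : Fin s}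
    {z : Fin r → ℤ} (hz : Sup κ i z) (x : Fin r) (a : Fin D ⊕ Unit)
    (h : Sum.elim μ (fun _ => i) a ≠ κ x) : bd M z x a = 0 := by
  rcases a with a | u
  · exact hM x a h
  · exact hz x (fun h' => h h'.symm)

theorem det_bd {M N : Matrix (Fin r) (Fin D) ℤ} (hM : Blk κ μ M) (hN : Blk κ μ N) {i : Fin s}
    {z w : Fin r → ℤ} (hz : Sup κ i z) (hw : Sup κ i w) :
    ((bd M z).transpose * bd N w).det =
      ((bd (blk κ μ i M) (vblk κ i z)).transpose * bd (blk κ μ i N) (vblk κ i w)).det *
        ∏ j ∈ Finset.univ.erase i, ((blk κ μ j M).transpose * blk κ μ j N).det := by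
  rw [B1_det ((bd M z).transpose * bd N w) (Sum.elim μ (fun _ => i))]
  · rw [← Finset.mul_prod_erase Finset.univ _ (Finset.mem_univ i)]
    congr 1
    · -- the block `i`
      let e : Fin (num μ i) ⊕ Unit → {a : Fin D ⊕ Unit // Sum.elim μ (fun _ => i) a = i} :=
        Sum.elim (fun a => ⟨Sum.inl (ix μ i a).1, (ix μ i a).2⟩) (fun u => ⟨Sum.inr u, rfl⟩)
      have he : Function.Bijective e := by
        constructor
        · rintro (a | a) (b | b) hab
          · have h1 : (ix μ i a).1 = (ix μ i b).1 := Sum.inl_injective (congrArg Subtype.val hab)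
            rw [(ix μ i).injective (Subtype.ext h1)]
          · exact absurd (congrArg Subtype.val hab) Sum.inl_ne_inr
          · exact absurd (congrArg Subtype.val hab) Sum.inr_ne_inl
          · rfl
        · rintro ⟨a | u, ha⟩
          · refine ⟨Sum.inl ((ix μ i).symm ⟨a, ha⟩), ?_⟩
            apply Subtype.ext
            show Sum.inl (ix μ i ((ix μ i).symm ⟨a, ha⟩)).1 = _
            rw [Equiv.apply_symm_apply]
          · exact ⟨Sum.inr u, rfl⟩
      rw [← Matrix.det_submatrix_equiv_self (Equiv.ofBijective e he)]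
      congr 1
      ext a b
      have h1 : (((bd M z).transpose * bd N w).toSquareBlock (Sum.elim μ (fun _ => i)) i).submatrix
          (Equiv.ofBijective e he) (Equiv.ofBijective e he) a b =
          ∑ x, bd M z x (e a).1 * bd N w x (e b).1 := rfl
      rw [h1, B1_sum (κ := κ) (j := i) (fun x => bd M z x (e a).1 * bd N w x (e b).1)]
      · rw [Matrix.mul_apply]
        refine Finset.sum_congr rfl fun y _ => ?_
        rcases a with a | a <;> rcases b with b | b <;> rfl
      · intro x hx
        rw [B1_bd_zero hM hz x _ (by rw [(e a).2]; exact fun h => hx h.symm), zero_mul]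
    · refine Finset.prod_congr rfl fun j hj => ?_
      have hji : j ≠ i := (Finset.mem_erase.1 hj).1
      let e : Fin (num μ j) → {a : Fin D ⊕ Unit // Sum.elim μ (fun _ => i) a = j} :=
        fun a => ⟨Sum.inl (ix μ j a).1, (ix μ j a).2⟩
      have he : Function.Bijective e := by
        constructor
        · intro a b hab
          have h1 : (ix μ j a).1 = (ix μ j b).1 := Sum.inl_injective (congrArg Subtype.val hab)
          exact (ix μ j).injective (Subtype.ext h1)
        · rintro ⟨a | u, ha⟩
          · refine ⟨(ix μ j).symm ⟨a, ha⟩, ?_⟩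
            apply Subtype.ext
            show Sum.inl (ix μ j ((ix μ j).symm ⟨a, ha⟩)).1 = _
            rw [Equiv.apply_symm_apply]
          · exact absurd ha.symm hji
      rw [← Matrix.det_submatrix_equiv_self (Equiv.ofBijective e he)]
      congr 1
      ext a b
      rw [← B1_blk hM j a b]
      rfl
  · intro a b hab
    rw [Matrix.mul_apply]
    refine Finset.sum_eq_zero fun x _ => ?_
    rw [Matrix.transpose_apply]
    by_cases h : Sum.elim μ (fun _ => i) a = κ x
    · rw [B1_bd_zero hN hw x b (fun h' => hab (h.trans h'.symm)), mul_zero]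
    · rw [B1_bd_zero hM hz x a h, zero_mul]

theorem blk_glue (B : ∀ j, Matrix (Fin (num κ j)) (Fin (num μ j)) ℤ) (j : Fin s) :
    blk κ μ j (glue κ μ B) = B j := by
  have key : ∀ (X : Fin r) (A : Fin D) (hX : κ X = j) (hA : μ A = κ X),
      B (κ X) ((ix κ (κ X)).symm ⟨X, rfl⟩) ((ix μ (κ X)).symm ⟨A, hA⟩) =
        B j ((ix κ j).symm ⟨X, hX⟩) ((ix μ j).symm ⟨A, hA.trans hX⟩) := by
    intro X A hX hA
    subst hX
    rfl
  ext x a
  have h : μ (ix μ j a).1 = κ (ix κ j x).1 := (ix μ j a).2.trans (ix κ j x).2.symm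
  show glue κ μ B (ix κ j x).1 (ix μ j a).1 = _
  unfold glue
  rw [dif_pos h, key _ _ (ix κ j x).2 h]
  have e1 : (⟨(ix κ j x).1, (ix κ j x).2⟩ : {x // κ x = j}) = ix κ j x := rfl
  have e2 : (⟨(ix μ j a).1, h.trans (ix κ j x).2⟩ : {x // μ x = j}) = ix μ j a := rfl
  rw [e1, e2, Equiv.symm_apply_apply, Equiv.symm_apply_apply]

theorem Blk_glue (B : ∀ j, Matrix (Fin (num κ j)) (Fin (num μ j)) ℤ) : Blk κ μ (glue κ μ B) := by
  intro x a h
  unfold glue
  rw [dif_neg h]

theorem vblk_vglue (i : Fin s) (v : Fin (num κ i) → ℤ) : vblk κ i (vglue κ i v) = v := by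
  funext x
  show vglue κ i v (ix κ i x).1 = _
  unfold vglue
  rw [dif_pos (ix κ i x).2]
  have e1 : (⟨(ix κ i x).1, (ix κ i x).2⟩ : {x // κ x = i}) = ix κ i x := rfl
  rw [e1, Equiv.symm_apply_apply]

theorem Sup_vglue (i : Fin s) (v : Fin (num κ i) → ℤ) : Sup κ i (vglue κ i v) := by
  intro x h
  unfold vglue
  rw [dif_neg h]

end Pool.Agent.LibEP66
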