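import Pool.Agent.LibEP66.GDefs

/-!
[EP66 G1] operations with Gram systems (elementary, only Mathlib).
`good_pi`: take `p t j = p_j (t j)`, `N = ∏ N_j`, `a i t = ∏ j, a_j (i j) (t j)`; sums over `∀ j, ι j` of
products factor (`Finset.prod_univ_sum`, `Fintype.piFinset_univ`), the product of `if i j = i' j then N_j else 0`
is `if i = i' then N else 0`; `m = ∏ m_j`, `c t = ∏ j, c_j (t j)`. `good_prod`: the same for two factors.
`good_sigma`: the union of the systems; `a ⟨j, i⟩ ⟨j', t⟩ = a_j i t * N / N_j` for `j = j'` and `0` otherwise,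
`N = ∏ N_j` (or a common multiple). `good_trans`: `p := g ∘ p`.
-/

open scoped Classical

namespace Pool.Agent.LibEP66

theorem good_equiv {P : Type} {k : P → P → ℤ} {ι ι' : Type} [Fintype ι] [Fintype ι']
    (e : ι ≃ ι') (h : Good k ι) : Good k ι' := by
  obtain ⟨p, N, a, hN, ha, hx⟩ := h
  refine ⟨fun i => p (e.symm i), N, fun i t => a (e.symm i) (e.symm t), hN, ?_, ?_⟩
  · intro i i'
    rw [Equiv.sum_comp e.symm (fun t => a (e.symm i) t * k (p (e.symm i')) (p t)), ha]
    simp only [EmbeddingLike.apply_eq_iff_eq]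
  · intro x
    obtain ⟨m, c, hm, hc⟩ := hx x
    refine ⟨m, fun i => c (e.symm i), hm, fun q => ?_⟩
    rw [Equiv.sum_comp e.symm (fun t => c t * k q (p t)), hc]

theorem good_trans {P P' : Type} {k : P → P → ℤ} {k' : P' → P' → ℤ} {ι : Type} [Fintype ι]
    (f : P → P') (g : P' → P) (hfg : ∀ p, f (g p) = p) (hk : ∀ p q, k p q = k' (f p) (f q))
    (h : Good k' ι) : Good k ι := by
  obtain ⟨p, N, a, hN, ha, hx⟩ := h
  refine ⟨fun i => g (p i), N, a, hN, ?_, ?_⟩
  · intro i i'
    rw [← ha i i']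
    refine Finset.sum_congr rfl fun t _ => ?_
    rw [hk, hfg, hfg]
  · intro x
    obtain ⟨m, c, hm, hc⟩ := hx (f x)
    refine ⟨m, c, hm, fun q => ?_⟩
    rw [hk, hc]
    refine Finset.sum_congr rfl fun t _ => ?_
    rw [hk, hfg]

theorem good_prod {P P' : Type} {k : P → P → ℤ} {k' : P' → P' → ℤ} {ι ι' : Type} [Fintype ι]
    [Fintype ι'] (h : Good k ι) (h' : Good k' ι') :
    Good (fun p q : P × P' => k p.1 q.1 * k' p.2 q.2) (ι × ι') := by
  obtain ⟨p, N, a, hN, ha, hx⟩ := h
  obtain ⟨p', N', a', hN', ha', hx'⟩ := h'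
  refine ⟨fun i => (p i.1, p' i.2), N * N', fun i t => a i.1 t.1 * a' i.2 t.2,
    mul_ne_zero hN hN', ?_, ?_⟩
  · rintro ⟨i, j⟩ ⟨i', j'⟩
    have h1 : ∑ t : ι × ι', a i t.1 * a' j t.2 * (k (p i') (p t.1) * k' (p' j') (p' t.2)) =
        (∑ t, a i t * k (p i') (p t)) * ∑ t, a' j t * k' (p' j') (p' t) := by
      rw [Finset.sum_mul_sum, Fintype.sum_prod_type]
      refine Finset.sum_congr rfl fun t _ => Finset.sum_congr rfl fun t' _ => ?_
      ring
    change ∑ t : ι × ι', a i t.1 * a' j t.2 * (k (p i') (p t.1) * k' (p' j') (p' t.2)) = _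
    rw [h1, ha, ha']
    by_cases hi : i = i'
    · by_cases hj : j = j'
      · rw [if_pos hi, if_pos hj, if_pos (by rw [hi, hj])]
      · rw [if_neg hj, mul_zero, if_neg (fun hc => hj (Prod.ext_iff.1 hc).2)]
    · rw [if_neg hi, zero_mul, if_neg (fun hc => hi (Prod.ext_iff.1 hc).1)]
  · rintro ⟨x, x'⟩
    obtain ⟨m, c, hm, hc⟩ := hx x
    obtain ⟨m', c', hm', hc'⟩ := hx' x'
    refine ⟨m * m', fun i => c i.1 * c' i.2, mul_ne_zero hm hm', ?_⟩
    rintro ⟨q, q'⟩
    change m * m' * (k q x * k' q' x') =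
      ∑ i : ι × ι', c i.1 * c' i.2 * (k q (p i.1) * k' q' (p' i.2))
    rw [show m * m' * (k q x * k' q' x') = (m * k q x) * (m' * k' q' x') by ring, hc, hc',
      Finset.sum_mul_sum, Fintype.sum_prod_type]
    refine Finset.sum_congr rfl fun t _ => Finset.sum_congr rfl fun t' _ => ?_
    ring

theorem good_pi {J : Type} [Fintype J] {P : J → Type} {k : ∀ j, P j → P j → ℤ}
    {ι : J → Type} [∀ j, Fintype (ι j)] (h : ∀ j, Good (k j) (ι j)) :
    Good (fun p q : ∀ j, P j => ∏ j, k j (p j) (q j)) (∀ j, ι j) := by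
  choose p N a hN ha hx using h
  have key : ∀ F : ∀ j, ι j → ℤ, ∑ t : (∀ j, ι j), ∏ j, F j (t j) = ∏ j, ∑ t, F j t := by
    intro F
    rw [Finset.prod_univ_sum, Fintype.piFinset_univ]
  refine ⟨fun i j => p j (i j), ∏ j, N j, fun i t => ∏ j, a j (i j) (t j),
    Finset.prod_ne_zero_iff.2 fun j _ => hN j, ?_, ?_⟩
  · intro i i'
    have h1 : ∀ t : (∀ j, ι j), (∏ j, a j (i j) (t j)) * ∏ j, k j (p j (i' j)) (p j (t j)) =
        ∏ j, a j (i j) (t j) * k j (p j (i' j)) (p j (t j)) := fun t =>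
      (Finset.prod_mul_distrib).symm
    rw [Finset.sum_congr rfl fun t _ => h1 t,
      key (fun j t => a j (i j) t * k j (p j (i' j)) (p j t)),
      Finset.prod_congr rfl fun j _ => ha j (i j) (i' j)]
    by_cases hi : i = i'
    · rw [if_pos hi]
      exact Finset.prod_congr rfl fun j _ => by rw [hi, if_pos rfl]
    · rw [if_neg hi]
      obtain ⟨j, hj⟩ := Function.ne_iff.1 hi
      exact Finset.prod_eq_zero (Finset.mem_univ j) (if_neg hj)
  · intro x
    choose m c hm hc using fun j => hx j (x j)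
    refine ⟨∏ j, m j, fun i => ∏ j, c j (i j), Finset.prod_ne_zero_iff.2 fun j _ => hm j,
      fun q => ?_⟩
    have h1 : ∀ t : (∀ j, ι j), (∏ j, c j (t j)) * ∏ j, k j (q j) (p j (t j)) =
        ∏ j, c j (t j) * k j (q j) (p j (t j)) := fun t => (Finset.prod_mul_distrib).symm
    rw [Finset.sum_congr rfl fun t _ => h1 t, key (fun j t => c j t * k j (q j) (p j t)),
      ← Finset.prod_mul_distrib]
    exact Finset.prod_congr rfl fun j _ => hc j (q j)

theorem good_sigma {J : Type} [Fintype J] {P : J → Type} {k : ∀ j, P j → P j → ℤ}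
    {ι : J → Type} [∀ j, Fintype (ι j)] (h : ∀ j, Good (k j) (ι j))
    (k' : (Σ j, P j) → (Σ j, P j) → ℤ) (hk : ∀ j (p q : P j), k' ⟨j, p⟩ ⟨j, q⟩ = k j p q)
    (hk0 : ∀ p q, p.1 ≠ q.1 → k' p q = 0) : Good k' (Σ j, ι j) := by
  choose p N a hN ha hx using h
  refine ⟨fun i => ⟨i.1, p i.1 i.2⟩, ∏ j, N j, fun i t =>
    if h : i.1 = t.1 then a t.1 (h ▸ i.2) t.2 * ∏ l ∈ Finset.univ.erase t.1, N l else 0,
    Finset.prod_ne_zero_iff.2 fun j _ => hN j, ?_, ?_⟩
  · rintro ⟨j, i⟩ ⟨l, i'⟩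
    rw [Fintype.sum_sigma, Finset.sum_eq_single j]
    · by_cases hjl : j = l
      · subst hjl
        have h1 : ∀ t : ι j, (if h : j = j then a j (h ▸ i) t *
            ∏ l ∈ Finset.univ.erase j, N l else 0) * k' ⟨j, p j i'⟩ ⟨j, p j t⟩ =
            (∏ l ∈ Finset.univ.erase j, N l) * (a j i t * k j (p j i') (p j t)) := by
          intro t
          rw [dif_pos rfl, hk]
          ring
        refine (Finset.sum_congr rfl fun t _ => h1 t).trans ?_
        rw [← Finset.mul_sum, ha]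
        by_cases hi : i = i'
        · rw [if_pos hi, if_pos (by rw [hi]), Finset.prod_erase_mul _ _ (Finset.mem_univ j)]
        · rw [if_neg hi, mul_zero, if_neg]
          intro hc
          exact hi (eq_of_heq (Sigma.mk.inj hc).2)
      · rw [if_neg (fun hc => hjl (Sigma.mk.inj hc).1)]
        refine Finset.sum_eq_zero fun t _ => ?_
        rw [hk0 _ _ (fun hc => hjl hc.symm), mul_zero]
    · intro j' _ hj'
      refine Finset.sum_eq_zero fun t _ => ?_
      beta_reduce
      rw [dif_neg (show ¬ j = j' from fun hc => hj' hc.symm), zero_mul]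
    · intro hc
      exact absurd (Finset.mem_univ j) hc
  · rintro ⟨j, y⟩
    obtain ⟨m, c, hm, hc⟩ := hx j y
    refine ⟨m, fun i => if h : i.1 = j then c (h ▸ i.2) else 0, hm, ?_⟩
    rintro ⟨l, z⟩
    rw [Fintype.sum_sigma, Finset.sum_eq_single j]
    · by_cases hjl : l = j
      · subst hjl
        rw [hk, hc]
        refine Finset.sum_congr rfl fun t _ => ?_
        beta_reduce
        rw [dif_pos rfl, hk]
      · rw [hk0 _ _ hjl, mul_zero]
        symm
        refine Finset.sum_eq_zero fun t _ => ?_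
        rw [hk0 _ _ hjl, mul_zero]
    · intro j' _ hj'
      refine Finset.sum_eq_zero fun t _ => ?_
      beta_reduce
      rw [dif_neg (show ¬ j' = j from hj'), zero_mul]
    · intro hc
      exact absurd (Finset.mem_univ j) hc

end Pool.Agent.LibEP66
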