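import Pool.Agent.LibEP66.G0

/-!
[EP66 N1] the kernel `det (Mᵀ N) ^ 2`. With the notions of LibMul34: for `n : Fin d → Fin r → ℚ` (the
columns of `N`) `det (Mᵀ N) ^ 2 = ∑ P : Pr r, (mn P.1 m * mn P.2 m) * (mn P.1 n * mn P.2 n)` (`cb`, compare `kf_eq`),
so `good_of_vec` with `T N P = mn P.1 n * mn P.2 n`. `T N` belongs to `ker (opE r) ⊓ Wt r d d` (`opE_T`, compare `Tv_mem`),
and the vectors `T N` span it: as in `mul_eq_finrank` this follows from `sq_orth`. Its dimension is `nu r d`
(`Sl2.finrank_ker` with `a = d`, `b + 1 = d`, and the case `d = 0`: `Sl2.finrank_ker0`).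
`sq_orth`, the only new point (LibMul34/Pol.lean, `pol`, is the same for `(D + 1, D)`): let `z` be in the kernel
and `Gz z n n = 0` for all `n : Fin d → Fin r → ℚ`. Claim: `Gz z n m = 0` for all `n`, `m`; by induction on the
number of the indices `c` with `m c ≠ n c` (`≤ j`). Let `m c ≠ n c` for exactly the `c` in a set `S` and `c₀` in `S`. For
fixed other columns `F (v, w) = Gz z (n [c₀ → v]) (m [c₀ → w])` is bilinear and `F (v, v) = 0` (induction), so
`F (v, w) = - F (w, v)`: exchanging `n c₀` and `m c₀` changes the sign, for every `c₀` in `S`. The exchange rule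
`Gz_exch` (for `m c₀`): `Gz z n m = ∑ j, Gz z (n [j → m c₀]) (m [c₀ → n j])`. For `j` outside `S` the second argument has two
equal columns (`m j = n j`): zero. For `j = c₀`: `F (m c₀, n c₀) = - Gz z n m`. For `j` in `S`, `j ≠ c₀`: exchange
also the columns `c₀` of both arguments (sign `-1`) and then use that `Gz` is alternating in each argument (a
transposition of the columns `c₀`, `j` in both arguments, sign `(-1)^2`)...: for the pairs of columns
`(n c₀, n j | m c₀, m j)` the term is `(n c₀, m c₀ | n j, m j)`. Write `[ab|cd]`; rules: `[ab|cd] = -[ba|cd] = -[ab|dc]`, and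
`[ab|cd] = -[cb|ad] = -[ad|cb]`. So `[ab|cd] = -[cb|ad] = [cb|da]...`; the term for `j` is `[ac|bd]` with
`a = n c₀, b = n j, c = m c₀, d = m j`; `[ac|bd] = -[bc|ad]= ...`. All permutations of `a, b, c, d` act by the sign
(the transpositions `ab`, `cd`, `ac`, `bd` do), so the term for `j` is `-Gz z n m` and the sum over `j` is
`-(#S) Gz z n m`; hence `(1 + #S) Gz z n m = 0`. Then `eq_zero_of_Gz`.
-/

open scoped Classical

namespace Pool.Agent.LibEP66

open Pool.Agent.LibMul34

/-- polarisation of the square -/
theorem N1_pol {r d : ℕ} (z : Pr r → ℚ) (hz : opE r z = 0)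
    (h0 : ∀ n : Fin d → Fin r → ℚ, Gz z n n = 0)
    (S : Finset (Fin d)) : ∀ (n m : Fin d → Fin r → ℚ),
      (∀ c, c ∉ S → m c = n c) → Gz z n m = 0 := by
  induction S using Finset.induction_on with
  | empty =>
    intro n m hm
    have h1 : m = n := funext fun c => hm c (Finset.notMem_empty c)
    rw [h1]
    exact h0 n
  | insert c₀ S hc₀ ih =>
    intro n m hm
    obtain ⟨D', rfl⟩ : ∃ D', d = D' + 1 := ⟨d - 1, by have := c₀.pos; omega⟩
    have hex := Gz_exch z hz n m c₀
    -- the polar identity at the column `c₀`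
    have hpol : ∀ (n' m' : Fin (D' + 1) → Fin r → ℚ), (∀ c, c ∉ insert c₀ S → m' c = n' c) →
        ∀ y y', Gz z (Function.update n' c₀ y) (Function.update m' c₀ y') =
          -Gz z (Function.update n' c₀ y') (Function.update m' c₀ y) := by
      intro n' m' hm' y y'
      refine polar z n' m' c₀ c₀ (fun y => ?_) y y'
      apply ih
      intro c hc
      by_cases hcc : c = c₀
      · subst hcc
        rw [Function.update_self, Function.update_self]
      · rw [Function.update_of_ne hcc, Function.update_of_ne hcc]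
        exact hm' c (by rw [Finset.mem_insert, not_or]; exact ⟨hcc, hc⟩)
    have key : ∀ j, Gz z (Function.update n j (m c₀)) (Function.update m c₀ (n j)) =
        if j ∈ insert c₀ S then -Gz z n m else 0 := by
      intro j
      by_cases hj : j ∉ insert c₀ S
      · rw [if_neg hj]
        have hj0 : j ≠ c₀ := fun h => hj (h ▸ Finset.mem_insert_self c₀ S)
        refine Gz_right_eq z _ _ (i := c₀) (j := j) hj0.symm ?_
        rw [Function.update_self, Function.update_of_ne hj0, hm j hj]
      · rw [if_pos (not_not.1 hj)]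
        by_cases hj0 : j = c₀
        · subst hj0
          rw [hpol n m hm, Function.update_eq_self, Function.update_eq_self]
        · -- first exchange
          have hjT : j ∈ insert c₀ S := not_not.1 hj
          have h1 := hpol (Function.update n j (m c₀)) m (fun c hc => by
            have : c ≠ j := fun h => hc (h ▸ hjT)
            rw [Function.update_of_ne this]
            exact hm c hc) (n c₀) (n j)
          have e1 : Function.update (Function.update n j (m c₀)) c₀ (n c₀) =
              Function.update n j (m c₀) := by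
            rw [Function.update_eq_self_iff, Function.update_of_ne (Ne.symm hj0)]
          -- the swap
          have e2 : Function.update (Function.update n j (m c₀)) c₀ (n j) =
              Function.update n c₀ (m c₀) ∘ Equiv.swap j c₀ := by
            funext i
            rw [Function.comp_apply]
            by_cases hi : i = c₀
            · subst hi
              rw [Function.update_self, Equiv.swap_apply_right, Function.update_of_ne hj0]
            · rw [Function.update_of_ne hi]
              by_cases hi' : i = j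
              · subst hi'
                rw [Equiv.swap_apply_left, Function.update_self, Function.update_self]
              · rw [Equiv.swap_apply_of_ne_of_ne hi' hi, Function.update_of_ne hi',
                  Function.update_of_ne hi]
          have h2 := hpol n m hm (m c₀) (n c₀)
          rw [Function.update_eq_self, Function.update_eq_self] at h2
          rw [e1, e2, Gz_swap z _ _ hj0, h2] at h1
          rw [h1]
          ring
    simp only [key] at hex
    rw [Finset.sum_ite, Finset.sum_const_zero, add_zero, Finset.sum_const, nsmul_eq_mul] at hex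
    have h5 : ((Finset.univ.filter fun j : Fin (D' + 1) =>
        j ∈ insert c₀ S).card + 1 : ℚ) * Gz z n m = 0 := by
      linarith
    rcases mul_eq_zero.1 h5 with h6 | h6
    · exfalso
      have h7 : (0 : ℚ) ≤ ((Finset.univ.filter fun j : Fin (D' + 1) =>
        j ∈ insert c₀ S).card : ℚ) := Nat.cast_nonneg _
      linarith
    · exact h6

theorem sq_orth {r d : ℕ} {z : Pr r → ℚ} (hz : opE r z = 0)
    (h : ∀ n : Fin d → Fin r → ℚ, Gz z n n = 0) (n m : Fin d → Fin r → ℚ) : Gz z n m = 0 :=
  N1_pol z hz h Finset.univ n m fun c hc => absurd (Finset.mem_univ c) hc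

/-- the columns -/
def N1_v {r d : ℕ} (N : Matrix (Fin r) (Fin d) ℤ) : Fin d → Fin r → ℚ := fun c x => (N x c : ℚ)

/-- the vector of the products of minors -/
noncomputable def N1_T {r d : ℕ} (N : Matrix (Fin r) (Fin d) ℤ) : Pr r → ℚ :=
  fun P => mn P.1 (N1_v N) * mn P.2 (N1_v N)

theorem N1_kernel {r d : ℕ} (M N : Matrix (Fin r) (Fin d) ℤ) :
    (((M.transpose * N).det ^ 2 : ℤ) : ℚ) = ∑ P, N1_T M P * N1_T N P := by
  have h1 : ((M.transpose * N).det : ℚ) = ∑ I, mn I (N1_v M) * mn I (N1_v N) := by
    rw [← cb, Int.cast_det]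
    congr 1
    ext i j
    simp [Matrix.mul_apply, N1_v]
  rw [Int.cast_pow, h1, sq, Fintype.sum_prod_type, Finset.sum_mul]
  refine Finset.sum_congr rfl fun J _ => ?_
  rw [Finset.mul_sum]
  refine Finset.sum_congr rfl fun I _ => ?_
  unfold N1_T
  ring

theorem N1_mem {r d : ℕ} (N : Matrix (Fin r) (Fin d) ℤ) :
    N1_T N ∈ LinearMap.ker (opE r) ⊓ Wt r d d := by
  refine ⟨?_, ?_⟩
  · exact LinearMap.mem_ker.2 (opE_T (N1_v N) _ fun c => ⟨c, rfl⟩)
  · intro P hP
    constructor
    · by_contra h
      exact hP (by unfold N1_T; rw [mn_zero h, zero_mul])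
    · by_contra h
      exact hP (by unfold N1_T; rw [mn_zero h, mul_zero])

theorem N1_zero {r d : ℕ} {z : Pr r → ℚ} (hz : z ∈ LinearMap.ker (opE r) ⊓ Wt r d d)
    (h : ∀ N : Matrix (Fin r) (Fin d) ℤ, ∑ P, z P * N1_T N P = 0) : z = 0 := by
  have h0 : ∀ n : Fin d → Fin r → ℚ, Gz z n n = 0 := by
    intro n
    obtain ⟨b, hb⟩ := IsLocalization.exist_integer_multiples_of_finite (nonZeroDivisors ℤ)
      (fun t : Fin d × Fin r => n t.1 t.2)
    choose f hf using hb
    have hb0 : ((b : ℤ) : ℚ) ≠ 0 := Int.cast_ne_zero.2 (nonZeroDivisors.ne_zero b.2)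
    let N : Matrix (Fin r) (Fin d) ℤ := Matrix.of fun x c => f (c, x)
    have h1 : N1_v N = fun i => ((b : ℤ) : ℚ) • n i := by
      funext j x
      have h2 : N1_v N j x = (f (j, x) : ℚ) := rfl
      rw [h2]
      have h3 := hf (j, x)
      simp only [algebraMap_int_eq, eq_intCast] at h3
      rw [h3]
      simp [zsmul_eq_mul]
    have h2 := h N
    have h3 : ∀ P : Pr r, z P * N1_T N P = ((b : ℤ) : ℚ) ^ d * ((b : ℤ) : ℚ) ^ d *
        (z P * mn P.1 n * mn P.2 n) := by
      intro P
      unfold N1_T
      rw [h1, mn_smul, mn_smul]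
      ring
    simp only [h3] at h2
    rw [← Finset.mul_sum] at h2
    rcases mul_eq_zero.1 h2 with h5 | h5
    · exact absurd h5 (mul_ne_zero (pow_ne_zero _ hb0) (pow_ne_zero _ hb0))
    · exact h5
  exact eq_zero_of_Gz hz.2 fun n m => sq_orth (LinearMap.mem_ker.1 hz.1) h0 n m

theorem N1_ker (r d : ℕ) :
    Module.finrank ℚ ↥(LinearMap.ker (opE r) ⊓ Wt r d d) = nu r d := by
  rcases Nat.eq_zero_or_pos d with rfl | hd
  · rw [Sl2.finrank_ker0]
    simp [nu]
  · obtain ⟨d, rfl⟩ : ∃ d', d = d' + 1 := ⟨d - 1, by omega⟩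
    have h := Sl2.finrank_ker (r := r) (a := d + 1) (b := d) (by omega)
    have h2 : r.choose (r + 1 - (d + 1)) * r.choose (d + 1 + 1) =
        r.choose (d + 1 + 1) * r.choose d := by
      rcases Nat.lt_or_ge r d with h3 | h3
      · rw [Nat.choose_eq_zero_of_lt (show r < d + 1 + 1 by omega), mul_zero, zero_mul]
      · have h1 : r.choose (r + 1 - (d + 1)) = r.choose d := by
          rw [← Nat.choose_symm h3]
          congr 1
          omega
        rw [h1, mul_comm]
    unfold nu
    rw [h2]
    omega

theorem N1_finrank (r d : ℕ) :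
    Module.finrank ℚ (Submodule.span ℚ (Set.range (N1_T (r := r) (d := d)))) = nu r d := by
  rw [← N1_ker]
  let U : Submodule ℚ (Pr r → ℚ) := Submodule.span ℚ (Set.range (N1_T (r := r) (d := d)))
  let K : Submodule ℚ (Pr r → ℚ) := LinearMap.ker (opE r) ⊓ Wt r d d
  have hUK : U ≤ K := by
    rw [Submodule.span_le]
    rintro _ ⟨p, rfl⟩
    exact N1_mem p
  have h1 : Module.finrank ℚ K ≤ Module.finrank ℚ U := by
    let ψ : K →ₗ[ℚ] Module.Dual ℚ U := (LinearMap.lcomp ℚ ℚ U.subtype) ∘ₗ (ip r) ∘ₗ K.subtype
    have hψ : Function.Injective ψ := by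
      rw [← LinearMap.ker_eq_bot, LinearMap.ker_eq_bot']
      intro z hz
      apply Subtype.ext
      refine N1_zero z.2 fun p => ?_
      have h2 := LinearMap.congr_fun hz ⟨N1_T p, Submodule.subset_span ⟨p, rfl⟩⟩
      exact h2
    have h3 := LinearMap.finrank_le_finrank_of_injective hψ
    rwa [Subspace.dual_finrank_eq] at h3
  exact le_antisymm (Submodule.finrank_mono hUK) h1

theorem good_nu (r d : ℕ) :
    Good (fun M N : Matrix (Fin r) (Fin d) ℤ => (M.transpose * N).det ^ 2) (Fin (nu r d)) := by
  rw [← N1_finrank r d]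
  exact good_of_vec (N1_T (r := r) (d := d)) N1_kernel

end Pool.Agent.LibEP66
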