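import Pool.Agent.LibEP66.G0

/-!
[EP66 N2] the kernel `kf` (SHORT): `good_of_vec` with `T = Tv` (`kf_eq`, LibMul34/Fin.lean); the dimension of the
span is `mul r d` (as `h2` in the proof of `mul_eq_finrank`: `U = K`), `mul_eq`.
-/

open scoped Classical

namespace Pool.Agent.LibEP66

open Pool.Agent.LibMul34

theorem good_mu (r d : ℕ) :
    Good (fun p q : Matrix (Fin r) (Fin d) ℤ × (Fin r → ℤ) => kf p q) (Fin (mu r d)) := by
  have h := good_of_vec (k := fun p q : Matrix (Fin r) (Fin d) ℤ × (Fin r → ℤ) => kf p q)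
    (Tv (r := r) (D := d)) kf_eq
  have hdim : Module.finrank ℚ (Submodule.span ℚ (Set.range (Tv (r := r) (D := d)))) = mu r d := by
    let U : Submodule ℚ (Pr r → ℚ) := Submodule.span ℚ (Set.range (Tv (r := r) (D := d)))
    let K : Submodule ℚ (Pr r → ℚ) := LinearMap.ker (opE r) ⊓ Wt r (d + 1) d
    have hUK : U ≤ K := by
      rw [Submodule.span_le]
      rintro _ ⟨p, rfl⟩
      exact Tv_mem p
    have h1 : Module.finrank ℚ K ≤ Module.finrank ℚ U := by
      let ψ : K →ₗ[ℚ] Module.Dual ℚ U := (LinearMap.lcomp ℚ ℚ U.subtype) ∘ₗ (ip r) ∘ₗ K.subtype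
      have hψ : Function.Injective ψ := by
        rw [← LinearMap.ker_eq_bot, LinearMap.ker_eq_bot']
        intro z hz
        apply Subtype.ext
        refine zero_of_orth z.2 fun p => ?_
        have h2 := LinearMap.congr_fun hz ⟨Tv p, Submodule.subset_span ⟨p, rfl⟩⟩
        exact h2
      have h3 := LinearMap.finrank_le_finrank_of_injective hψ
      rwa [Subspace.dual_finrank_eq] at h3
    have h2 : Module.finrank ℚ U = Module.finrank ℚ K :=
      le_antisymm (Submodule.finrank_mono hUK) h1
    rw [show Module.finrank ℚ (Submodule.span ℚ (Set.range (Tv (r := r) (D := d)))) =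
      Module.finrank ℚ U from rfl, h2, ← mul_eq_finrank, mul_eq]
    rfl
  rwa [hdim] at h

end Pool.Agent.LibEP66
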