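import Pool.Agent.LibEP66.B1
import Pool.Agent.LibEP66.G1
import Pool.Agent.LibEP66.N1
import Pool.Agent.LibEP66.N2

/-!
[EP66 B2] Gram systems for one `μ` (`good_fac`) and for all `μ` (`good_all`).
`det_ne`: if `det (Mᵀ N) ≠ 0` there is a permutation `σ` with all `(Mᵀ N) (σ a) a ≠ 0` (`Matrix.det_apply`), so
`μ (σ a) = κ x = ν a` for all `a`; `μ` and `ν = μ ∘ σ` are monotone, hence equal (`Tuple.unique_monotone`).
`good_fac`: `kf = kf (block i) * ∏ (j ≠ i), det ^ 2 (block j)` (`det_blk`, `det_bd`); `good_trans` to the product of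
`Matrix × vector` for `i` and of the matrices for `j : {j // j ≠ i}`; `good_prod`, `good_pi` (over `{j // j ≠ i}`),
`good_mu`, `good_nu`, `good_equiv` (cardinals: `Fintype.card_pi`, `Finset.prod_subtype`). `good_all`: `good_trans` to the
sum over `{μ // Monotone μ}`, `good_sigma`, `det_ne`, `good_equiv` (`Finset.sum_subtype`).
-/

open scoped Classical

namespace Pool.Agent.LibEP66

open Pool.Agent.LibAC34 Pool.Agent.LibMul34

variable {s r D : ℕ}

theorem det_ne {κ : Fin r → Fin s} {μ ν : Fin D → Fin s} (hμ : Monotone μ) (hν : Monotone ν)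
    (h : μ ≠ ν) {M N : Matrix (Fin r) (Fin D) ℤ} (hM : Blk κ μ M) (hN : Blk κ ν N) :
    (M.transpose * N).det = 0 := by
  by_contra hd
  rw [Matrix.det_apply] at hd
  obtain ⟨σ, -, hσ⟩ := Finset.exists_ne_zero_of_sum_ne_zero hd
  have hp : ∏ a, (M.transpose * N) (σ a) a ≠ 0 := by
    intro h0
    rw [h0, smul_zero] at hσ
    exact hσ rfl
  have hs : ∀ a, μ (σ a) = ν a := by
    intro a
    have h1 : (M.transpose * N) (σ a) a ≠ 0 := (Finset.prod_ne_zero_iff.1 hp) a (Finset.mem_univ a)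
    rw [Matrix.mul_apply] at h1
    obtain ⟨x, -, hx⟩ := Finset.exists_ne_zero_of_sum_ne_zero h1
    rw [Matrix.transpose_apply] at hx
    have h2 : M x (σ a) ≠ 0 := left_ne_zero_of_mul hx
    have h3 : N x a ≠ 0 := right_ne_zero_of_mul hx
    have h4 : μ (σ a) = κ x := by
      by_contra h5
      exact h2 (hM x (σ a) h5)
    have h5 : ν a = κ x := by
      by_contra h6
      exact h3 (hN x a h6)
    rw [h4, h5]
  have h6 : μ ∘ σ = ν := funext hs
  have h7 : μ ∘ σ = μ ∘ (1 : Equiv.Perm (Fin D)) :=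
    Tuple.unique_monotone (f := μ) (by rw [h6]; exact hν) (by simpa using hμ)
  apply h
  rw [← h6, h7]
  rfl

private theorem B2_inst {P : Type} {k : P → P → ℤ} {ι : Type} (i₁ i₂ : Fintype ι)
    (h : @Good P k ι i₁) : @Good P k ι i₂ := by
  have e : i₁ = i₂ := Subsingleton.elim _ _
  subst e
  exact h

private theorem B2_kf (κ : Fin r → Fin s) (μ : Fin D → Fin s) (i : Fin s)
    {p q : Matrix (Fin r) (Fin D) ℤ × (Fin r → ℤ)} (hp : Blk κ μ p.1 ∧ Sup κ i p.2)
    (hq : Blk κ μ q.1 ∧ Sup κ i q.2) :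
    kf p q = kf (blk κ μ i p.1, vblk κ i p.2) (blk κ μ i q.1, vblk κ i q.2) *
      ∏ j : {j // j ≠ i}, ((blk κ μ j.1 p.1).transpose * blk κ μ j.1 q.1).det ^ 2 := by
  have h1 : ∀ j, ((blk κ μ j q.1).transpose * blk κ μ j p.1).det =
      ((blk κ μ j p.1).transpose * blk κ μ j q.1).det := by
    intro j
    rw [← Matrix.det_transpose, Matrix.transpose_mul, Matrix.transpose_transpose]
  have h2 : ∏ j : {j // j ≠ i}, ((blk κ μ j.1 p.1).transpose * blk κ μ j.1 q.1).det ^ 2 =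
      ∏ j ∈ Finset.univ.erase i, ((blk κ μ j p.1).transpose * blk κ μ j q.1).det ^ 2 := by
    rw [← Finset.prod_subtype (Finset.univ.erase i) (p := fun j => j ≠ i)
      (f := fun j => ((blk κ μ j p.1).transpose * blk κ μ j q.1).det ^ 2)
      (fun x => by simp)]
  rw [h2]
  unfold kf
  rw [det_blk hq.1 hp.1, det_bd hq.1 hp.1 hq.2 hp.2,
    ← Finset.mul_prod_erase Finset.univ _ (Finset.mem_univ i), Finset.prod_pow]
  simp only [h1]
  ring

theorem good_fac (κ : Fin r → Fin s) (μ : Fin D → Fin s) (i : Fin s) :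
    Good (fun p q : {p : Matrix (Fin r) (Fin D) ℤ × (Fin r → ℤ) // Blk κ μ p.1 ∧ Sup κ i p.2} =>
      kf p.1 q.1)
      (Fin (mu (num κ i) (num μ i) * ∏ j ∈ Finset.univ.erase i, nu (num κ j) (num μ j))) := by
  have h1 := good_pi (J := {j // j ≠ i})
    (P := fun j => Matrix (Fin (num κ j.1)) (Fin (num μ j.1)) ℤ)
    fun j => good_nu (num κ j.1) (num μ j.1)
  have h2 : Good (fun p q : ∀ j : {j // j ≠ i}, Matrix (Fin (num κ j.1)) (Fin (num μ j.1)) ℤ =>
      ∏ j, ((p j).transpose * q j).det ^ 2) (∀ j : {j // j ≠ i}, Fin (nu (num κ j.1) (num μ j.1))) :=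
    B2_inst _ _ h1
  have hG := good_prod (good_mu (num κ i) (num μ i)) h2
  let Q : Type := (Matrix (Fin (num κ i)) (Fin (num μ i)) ℤ × (Fin (num κ i) → ℤ)) ×
    (∀ j : {j // j ≠ i}, Matrix (Fin (num κ j.1)) (Fin (num μ j.1)) ℤ)
  let f : {p : Matrix (Fin r) (Fin D) ℤ × (Fin r → ℤ) // Blk κ μ p.1 ∧ Sup κ i p.2} → Q :=
    fun p => ((blk κ μ i p.1.1, vblk κ i p.1.2), fun j => blk κ μ j.1 p.1.1)
  let B : Q → ∀ j, Matrix (Fin (num κ j)) (Fin (num μ j)) ℤ := fun p' j =>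
    if h : j = i then h ▸ p'.1.1 else p'.2 ⟨j, h⟩
  let g : Q → {p : Matrix (Fin r) (Fin D) ℤ × (Fin r → ℤ) // Blk κ μ p.1 ∧ Sup κ i p.2} :=
    fun p' => ⟨(glue κ μ (B p'), vglue κ i p'.1.2),
      ⟨Blk_glue (κ := κ) (μ := μ) (B p'), Sup_vglue i p'.1.2⟩⟩
  have hfg : ∀ p', f (g p') = p' := by
    intro p'
    have e1 : blk κ μ i (glue κ μ (B p')) = p'.1.1 := by
      rw [blk_glue]
      simp only [B, dif_pos rfl]
    have e2 : vblk κ i (vglue κ i p'.1.2) = p'.1.2 := vblk_vglue _ _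
    have e3 : (fun j : {j // j ≠ i} => blk κ μ j.1 (glue κ μ (B p'))) = p'.2 := by
      funext j
      rw [blk_glue]
      simp only [B, dif_neg j.2]
    exact Prod.ext (Prod.ext e1 e2) e3
  have hk : ∀ p q : {p : Matrix (Fin r) (Fin D) ℤ × (Fin r → ℤ) // Blk κ μ p.1 ∧ Sup κ i p.2},
      kf p.1 q.1 = (fun p q : Q => kf p.1 q.1 *
        ∏ j, ((p.2 j).transpose * q.2 j).det ^ 2) (f p) (f q) := by
    intro p q
    exact B2_kf κ μ i p.2 q.2
  refine good_equiv (Fintype.equivOfCardEq ?_) (good_trans f g hfg hk hG)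
  rw [← Nat.card_eq_fintype_card, Nat.card_prod, Nat.card_pi, Nat.card_fin, Fintype.card_fin]
  congr 1
  rw [Finset.prod_congr rfl fun (j : {j // j ≠ i}) _ => Nat.card_fin _]
  rw [← Finset.prod_subtype (Finset.univ.erase i) (p := fun j => j ≠ i)
      (f := fun j => nu (num κ j) (num μ j)) (fun x => by simp)]

theorem good_all (κ : Fin r → Fin s) (D : ℕ) (i : Fin s) :
    Good (kp (κ := κ) (D := D) (i := i)) (Fin (mlt κ D i)) := by
  have hG := good_sigma (J := {μ : Fin D → Fin s // Monotone μ})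
    (P := fun μ => {p : Matrix (Fin r) (Fin D) ℤ × (Fin r → ℤ) // Blk κ μ.1 p.1 ∧ Sup κ i p.2})
    (fun μ => good_fac κ μ.1 i) (fun p q => kf p.2.1 q.2.1) (fun j p q => rfl) (by
      intro p q hpq
      unfold kf
      rw [det_ne q.1.2 p.1.2 (fun h => hpq (Subtype.ext h.symm)) q.2.2.1 p.2.2.1, zero_mul])
  let f : PP κ D i → Σ μ : {μ : Fin D → Fin s // Monotone μ},
      {p : Matrix (Fin r) (Fin D) ℤ × (Fin r → ℤ) // Blk κ μ.1 p.1 ∧ Sup κ i p.2} :=
    fun p => ⟨⟨p.1.1, p.2.1⟩, ⟨p.1.2, p.2.2⟩⟩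
  let g : (Σ μ : {μ : Fin D → Fin s // Monotone μ},
      {p : Matrix (Fin r) (Fin D) ℤ × (Fin r → ℤ) // Blk κ μ.1 p.1 ∧ Sup κ i p.2}) → PP κ D i :=
    fun p => ⟨(p.1.1, p.2.1), p.1.2, p.2.2⟩
  refine good_equiv (Fintype.equivOfCardEq ?_) (good_trans f g (fun p => rfl)
    (k := kp (κ := κ) (D := D) (i := i)) (fun p q => rfl) hG)
  rw [← Nat.card_eq_fintype_card, Nat.card_sigma, Fintype.card_fin]
  rw [Finset.sum_congr rfl fun (j : {μ : Fin D → Fin s // Monotone μ}) _ => Nat.card_fin _]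
  unfold mlt
  rw [← Finset.sum_subtype (Finset.univ.filter fun μ : Fin D → Fin s => Monotone μ)
    (p := fun μ => Monotone μ)
    (f := fun μ => mu (num κ i) (num μ i) * ∏ j ∈ Finset.univ.erase i, nu (num κ j) (num μ j))
    (fun x => by simp)]

end Pool.Agent.LibEP66
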