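import Pool.Agent.LibER66.Stmt

/-!
Homologically trivial cycles over a number field on products of elliptic curves: the statement.
-/

open WeierstrassCurve Pool.Agent.LibBH2 Pool.Agent.LibIG50 Pool.Agent.LibCHd Pool.Agent.LibGG
  Pool.Agent.LibAC34 Pool.Agent.LibER66
open scoped Classical

namespace Pool.Agent.LibEP66

variable {K : Type} [Field K] [Algebra K Qb] {s r D : ℕ}

/-- the curves `E (κ 1), ..., E (κ r)` over `Qb` -/
noncomputable abbrev prd (E : Fin s → WeierstrassCurve K) {n : ℕ} (κ : Fin n → Fin s) :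
    Fin n → WeierstrassCurve Qb := fun x => (E (κ x))⁄Qb

/-- The symbols `(μ, N, g)`, where `N` is an integral matrix with `r` rows and `D` columns and `g` a
point of the product `A = E (κ 1) × ... × E (κ r)` over `Qb`: the symbol stands for the cycle
`N_* B + g` on `A`, where `B = E (μ 1) × ... × E (μ D)`. -/
abbrev Sy (E : Fin s → WeierstrassCurve K) (κ : Fin r → Fin s) (D : ℕ) : Type :=
  (Fin D → Fin s) × Matrix (Fin r) (Fin D) ℤ × Pts (prd E κ)

/-- The formal integral combinations of symbols `(μ, N, g)` such that `μ 1 ≤ ... ≤ μ D`, `N` is a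
homomorphism from `B` to `A` (its entries between different curves are zero) and the components of `g`
belong to the groups `Γ`, which are invariant under the Galois group of `K`. -/
def ZP (Γ : Grid) (E : Fin s → WeierstrassCurve K) (κ : Fin r → Fin s) (D : ℕ) :
    Set (Sy E κ D →₀ ℤ) :=
  {c | (∀ p ∈ c.support, Monotone p.1 ∧ Mat (prd E p.1) (prd E κ) p.2.1 ∧
      ∀ x, p.2.2 x ∈ Γ (prd E κ x)) ∧
    ∀ σ : Qb ≃ₐ[K] Qb, c.mapDomain (fun p => (p.1, p.2.1, fun x => gal σ (p.2.2 x))) = c}

/-- The homologically trivial ones among them: the intersection numbers `∑ n * det (Mᵀ N) ^ 2` with the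
kernels of the homomorphisms `Mᵀ` from `A` to the products `E (μ 1) × ... × E (μ D)` are zero. -/
def ZP0 (Γ : Grid) (E : Fin s → WeierstrassCurve K) (κ : Fin r → Fin s) (D : ℕ) :
    Set (Sy E κ D →₀ ℤ) :=
  {c | c ∈ ZP Γ E κ D ∧ ∀ (μ : Fin D → Fin s) (M : Matrix (Fin r) (Fin D) ℤ),
    Mat (prd E μ) (prd E κ) M →
    (c.sum fun p n => n * (M.transpose * p.2.1).det ^ 2) = 0}

/-- The class of the cycle `c * Z` in the Chow group of `A × Y`, for a formal combination `c` of
symbols: the sum of the classes of the cycles `(N_* B + g) * Z`, where `Z` is the cycle of the point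
`u`, and `ξ μ` is the generic point of the product `B` of the curves `E (μ a)`. -/
noncomputable def actP {E : Fin s → WeierstrassCurve K} {κ : Fin r → Fin s} {Y : Prj Qb}
    {L : Type} [Field L] [Algebra Qb L] {F : (Fin D → Fin s) → Type} [∀ μ, Field (F μ)]
    [∀ μ, Algebra Qb (F μ)] (l : ∀ μ, L →ₐ[Qb] F μ) (m : ℕ)
    (ξ : ∀ μ a, ((prd E μ a)⁄(F μ)).toAffine.Point) (u : Pnt (prd E κ) Y L)
    (c : Sy E κ D →₀ ℤ) : CH (prd E κ) Y m :=
  c.sum fun p n => n • cl (V := prd E p.1) (l p.1) m (ξ p.1) u p.2.1 p.2.2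

/-- the number of the indices `x` with `κ x = i`: how often the curve `E i` occurs -/
def num {n : ℕ} (κ : Fin n → Fin s) (i : Fin s) : ℕ := (Finset.univ.filter fun x => κ x = i).card

/-- `C(r, d) C(r, d + 1) - C(r, d - 1) C(r, d + 2)`, where `C(r, d - 1) = C(r, r + 1 - d)` -/
def mu (r d : ℕ) : ℕ := r.choose d * r.choose (d + 1) - r.choose (r + 1 - d) * r.choose (d + 2)

/-- `C(r, d) ^ 2 - C(r, d - 1) C(r, d + 1)`, where `C(r, d - 1) = C(r, r + 1 - d)` -/
def nu (r d : ℕ) : ℕ := r.choose d * r.choose d - r.choose (r + 1 - d) * r.choose (d + 1)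

/-- the sum of `mu (r i, d i) * ∏ nu (r j, d j)`, `j ≠ i`, over all `μ 1 ≤ ... ≤ μ D`, where `r j` and
`d j` are the numbers of the factors `E j` of `A = ∏ E (κ x)` and of `B = ∏ E (μ a)` -/
def mlt (κ : Fin r → Fin s) (D : ℕ) (i : Fin s) : ℕ :=
  ∑ μ : Fin D → Fin s with Monotone μ, mu (num κ i) (num μ i) *
    ∏ j ∈ Finset.univ.erase i, nu (num κ j) (num μ j)

/-- **Exact rank.** Let `E 1, ..., E s` be different elliptic curves over `K`. For the product `A` of the
curves `E (κ 1), ..., E (κ r)` the classes of the homologically trivial cycles `c` over `K` of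
dimension `D` on `A` which are combinations of the translates of the images of the products `B` of
`D` of the curves by points with components in the groups `Γ` generate a group of rank
`∑ i, mlt κ D i * rank (E_i(K) ∩ Γ E_i)`. Here `CH_D (A)` may be replaced by `CH_D (A × Y)`, `Y`
projective: for a point `u` of `A × Y` over `Qb` the class of the image of the cycle `c` under the
translation by `u` is taken. -/
def ExactRankP (K : Type) [Field K] [Algebra K Qb] (Γ : Grid) : Prop :=
  ∀ (s : ℕ) (E : Fin s → WeierstrassCurve K), (∀ i, (E i).IsElliptic) → Function.Injective E →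
    ∀ (r : ℕ) (κ : Fin r → Fin s) (D : ℕ) (Y : Prj Qb) (L : Type) [Field L] [Algebra Qb L]
      (u : Pnt (prd E κ) Y L) (F : (Fin D → Fin s) → Type) [∀ μ, Field (F μ)]
      [∀ μ, Algebra Qb (F μ)] (l : ∀ μ, L →ₐ[Qb] F μ)
      (ξ : ∀ μ a, ((prd E μ a)⁄(F μ)).toAffine.Point),
      (∀ μ, IsGen 0 (l μ) (prd E μ) (ξ μ)) →
      rk (actP l (0 + D) ξ u '' ZP0 Γ E κ D) = ∑ i, (mlt κ D i : Cardinal) * rk (GK Γ (E i))

end Pool.Agent.LibEP66
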