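import Pool.Agent.LibEP66.GDefs
import Pool.Agent.LibCV66.C6

/-!
[EP66 E1] the functional `Phi` is zero on cycles of another type. `exists_lt`: otherwise `num μ j ≤ num ν j` for
all `j`; both sums over `j` are `D`, so all are equal, and two monotone maps with the same numbers are equal
(e.g. `List.Perm` of sorted lists, or a permutation and `Tuple.unique_monotone`).
`phi_ne`: `FunF Qb D K` (`gen_all h`), `phi_cyc` (LibCV66/P4): `Phi` is a sum over `Emb β η T.z`, `T = lin l ξ N g u`;
this set is empty. As in the proof of `phi_lin` (LibCV66/C6.lean, `hTz`, `hsz`, `hβs`; `mx_mul` is not needed) an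
embedding `s` in it gives: for every `a` the point `η a` of `V a = E₀` is the sum of a constant point and of
multiples of the points `tr (V' b) (V a) (mp s (ξ b))`, which are zero unless `V' b = V a`. Let
`A = {a | V a = E₀}`, `B = {b | V' b = E₀}`, `#B < #A`. All the coordinates of `η` belong to the field generated
by the coordinates of the `#B + (D - #A) < D` points `mp s (ξ b)`, `b ∈ B`, and `η a`, `a ∉ A` (`coo_add`-type lemmas of
LibAC34/A1.lean or A6.lean: coordinates of sums are in the field of the coordinates), so `trdeg (cof η) < D` by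
`trdeg_cof_le` (LibCV66/T1; put the points in one family indexed by `Fin n`) or `trdeg_adjoin_le` (LibAC34/A6),
against `Gn η`.
-/

open WeierstrassCurve Pool.Agent.LibBH2 Pool.Agent.LibIG50 Pool.Agent.LibCHd Pool.Agent.LibAC34
  Pool.Agent.LibCV66
open scoped Classical

namespace Pool.Agent.LibEP66

theorem exists_lt {s D : ℕ} {μ ν : Fin D → Fin s} (hμ : Monotone μ) (hν : Monotone ν)
    (h : μ ≠ ν) : ∃ j, num ν j < num μ j := by
  by_contra hcon
  push Not at hcon
  have h1 : ∀ κ : Fin D → Fin s, ∑ j, num κ j = D := by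
    intro κ
    have h2 := Finset.card_eq_sum_card_fiberwise (f := κ) (s := (Finset.univ : Finset (Fin D)))
      (t := (Finset.univ : Finset (Fin s))) (fun _ _ => Finset.mem_coe.2 (Finset.mem_univ _))
    rw [Finset.card_univ, Fintype.card_fin] at h2
    exact h2.symm
  have h2 : ∀ j, num μ j = num ν j := by
    have h3 := (Finset.sum_eq_sum_iff_of_le (s := (Finset.univ : Finset (Fin s)))
      (f := fun j => num μ j) (g := fun j => num ν j) (fun j _ => hcon j)).1
      ((h1 μ).trans (h1 ν).symm)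
    exact fun j => h3 j (Finset.mem_univ j)
  have h3 : ∀ j, Nonempty ({a // ν a = j} ≃ {a // μ a = j}) := by
    intro j
    refine ⟨Fintype.equivOfCardEq ?_⟩
    rw [Fintype.card_subtype, Fintype.card_subtype]
    exact (h2 j).symm
  let σ : Equiv.Perm (Fin D) := Equiv.ofFiberEquiv fun j => (h3 j).some
  have h4 : μ ∘ σ = ν := funext fun a => Equiv.ofFiberEquiv_map (fun j => (h3 j).some) a
  have h5 : μ ∘ σ = μ ∘ (1 : Equiv.Perm (Fin D)) :=
    Tuple.unique_monotone (f := μ) (by rw [h4]; exact hν) (by simpa using hμ)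
  apply h
  rw [← h4, h5]
  rfl

section Aux

variable {F G : Type} [Field F] [Algebra Qb F] [Field G] [Algebra Qb G]
  {E : WeierstrassCurve Qb}

private theorem E1_add (f : F →ₐ[Qb] G) {x y : (E⁄G).toAffine.Point} (hx : ∃ q, mp f q = x)
    (hy : ∃ q, mp f q = y) : ∃ q, mp f q = x + y := by
  obtain ⟨p, rfl⟩ := hx
  obtain ⟨q, rfl⟩ := hy
  exact ⟨p + q, map_add _ _ _⟩

private theorem E1_smul (f : F →ₐ[Qb] G) {x : (E⁄G).toAffine.Point} (n : ℤ)
    (hx : ∃ q, mp f q = x) : ∃ q, mp f q = n • x := by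
  obtain ⟨p, rfl⟩ := hx
  exact ⟨n • p, map_zsmul _ _ _⟩

private theorem E1_sum (f : F →ₐ[Qb] G) {J : Type} [Fintype J] (x : J → (E⁄G).toAffine.Point)
    (h : ∀ j, ∃ q, mp f q = x j) : ∃ q, mp f q = ∑ j, x j := by
  choose q hq using h
  refine ⟨∑ j, q j, ?_⟩
  rw [map_sum]
  exact Finset.sum_congr rfl fun j _ => hq j

end Aux

theorem phi_ne {r D : ℕ} {W : Fin r → WeierstrassCurve Qb} {V V' : Fin D → WeierstrassCurve Qb}
    (hV : ∀ a, (V a).IsElliptic) (hV' : ∀ a, (V' a).IsElliptic) {Y : Prj Qb} {L K : Type}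
    [Field L] [Algebra Qb L] [Field K] [Algebra Qb K] {l : L →ₐ[Qb] K}
    {ξ : ∀ a, ((V' a)⁄K).toAffine.Point} (h : IsGen 0 l V' ξ)
    (u : Pnt W Y L) (u₀ : Pts W) (hu : ∀ i, u.z i = constPt L (u₀ i))
    {Ω : Type} [Field Ω] [Algebra Qb Ω] [IsAlgClosed Ω]
    {η : ∀ a, ((V a)⁄Ω).toAffine.Point} (hη : Gn η) {M N : Matrix (Fin r) (Fin D) ℤ}
    (hM : Mat V W M) (hN : Mat V' W N) {E : WeierstrassCurve Qb} [E.IsElliptic]
    (β : ∀ a, PH W (V a)) (γ : PH W E)
    (hβ : ∀ a (F : Type) [Field F] [Algebra Qb F] (P : ∀ i, ((W i)⁄F).toAffine.Point),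
      (β a).f F P = lc (V a) (fun i => M i a) P)
    (E₀ : WeierstrassCurve Qb) (hne : (Finset.univ.filter fun a => V' a = E₀).card <
      (Finset.univ.filter fun a => V a = E₀).card) (g : Pts W) :
    Phi Y β γ η (cyc (lin l ξ N g u)) = 0 := by
  have hK : FunF Qb D K := (gen_all h).2.2
  obtain ⟨T, hT⟩ : ∃ T : Pnt W Y K, T = lin l ξ N g u := ⟨_, rfl⟩
  have hTz : ∀ i, T.z i = constPt K (g i) + (mx W N ξ i + constPt K (u₀ i)) := by
    intro i
    have h1 : T.z i = constPt K (g i) + ((∑ a, N i a • tr (V' a) (W i) (ξ a)) + mp l (u.z i)) := by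
      rw [hT]
      rfl
    rw [h1, hu, mp_const, mx_apply]
  have hemp : Emb β η T.z = ∅ := by
    rw [Set.eq_empty_iff_forall_notMem]
    intro s hs
    have hcard : Fintype.card ({b // V' b = E₀} ⊕ {a // V a ≠ E₀}) < D := by
      rw [Fintype.card_sum, Fintype.card_subtype, Fintype.card_subtype]
      have h1 := Finset.card_filter_add_card_filter_not (s := (Finset.univ : Finset (Fin D)))
        (fun a => V a = E₀)
      rw [Finset.card_univ, Fintype.card_fin] at h1
      have h2 : (Finset.univ.filter fun a => V a ≠ E₀).card =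
          (Finset.univ.filter fun a => ¬ V a = E₀).card := rfl
      omega
    obtain ⟨n, hn⟩ : ∃ n, n = Fintype.card ({b // V' b = E₀} ⊕ {a // V a ≠ E₀}) := ⟨_, rfl⟩
    let e : Fin n ≃ {b // V' b = E₀} ⊕ {a // V a ≠ E₀} :=
      Fintype.equivOfCardEq (by rw [Fintype.card_fin, hn])
    let U : ({b // V' b = E₀} ⊕ {a // V a ≠ E₀}) → WeierstrassCurve Qb :=
      fun x => Sum.elim (fun b => V' b.1) (fun a => V a.1) x
    let w' : ∀ x, ((U x)⁄Ω).toAffine.Point := fun x =>
      match x with
      | .inl b => mp s (ξ b.1)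
      | .inr a => η a.1
    let w : ∀ c : Fin n, ((U (e c))⁄Ω).toAffine.Point := fun c => w' (e c)
    have hw : ∀ x, coo (w' x) ⊆ (cof w : Set Ω) := by
      intro x c hc'
      refine IntermediateField.subset_adjoin _ _ ⟨e.symm x, ?_⟩
      show c ∈ coo (w' (e (e.symm x)))
      rw [e.apply_symm_apply]
      exact hc'
    have hmem : ∀ a, V a = E₀ → ∃ q, mp (cof w).val q = η a := by
      intro a ha
      have h1 : η a = ∑ i, M i a • tr (W i) (V a) (mp s (T.z i)) := by
        rw [← hs a, ← (β a).nat K Ω s T.z, hβ]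
        rfl
      rw [h1]
      refine E1_sum (cof w).val _ fun i => E1_smul (cof w).val _ ?_
      by_cases hi : W i = V a
      swap
      · exact ⟨0, by rw [tr_ne hi, mp_zero]⟩
      have h3 : ∃ q, mp (cof w).val q = mp s (T.z i) := by
        rw [hTz, map_add, map_add, mp_const, mp_const, mx_apply, map_sum]
        refine E1_add (cof w).val ⟨constPt _ (g i), mp_const _ _⟩
          (E1_add (cof w).val ?_ ⟨constPt _ (u₀ i), mp_const _ _⟩)
        refine E1_sum (cof w).val _ fun b => ?_
        rw [map_zsmul, mp_tr]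
        refine E1_smul (cof w).val _ ?_
        by_cases hb : V' b = W i
        · obtain ⟨q, hq⟩ := exists_pt (cof w) (mp s (ξ b))
            (hw (Sum.inl ⟨b, by rw [hb, hi, ha]⟩))
          exact ⟨tr (V' b) (W i) q, by rw [mp_tr, hq]⟩
        · exact ⟨0, by rw [tr_ne hb, mp_zero]⟩
      obtain ⟨q, hq⟩ := h3
      exact ⟨tr (W i) (V a) q, by rw [mp_tr, hq]⟩
    have hle : cof η ≤ cof w := by
      unfold cof
      rw [IntermediateField.adjoin_le_iff]
      rintro c ⟨a, hc'⟩
      by_cases ha : V a = E₀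
      · obtain ⟨q, hq⟩ := hmem a ha
        rw [← hq, coo_mp] at hc'
        obtain ⟨d, -, rfl⟩ := hc'
        exact d.2
      · exact hw (Sum.inr ⟨a, ha⟩) hc'
    have h1 : Algebra.trdeg Qb (cof η) ≤ (n : Cardinal) :=
      (trdeg_le_of_injective (IntermediateField.inclusion hle)
        (IntermediateField.inclusion_injective hle)).trans (trdeg_cof_le w)
    have h2 : Algebra.trdeg Qb (cof η) = (D : Cardinal) := hη
    rw [h2] at h1
    have h3 : D ≤ n := by exact_mod_cast h1
    omega
  rw [← hT, phi_cyc hV β γ hη hK T, hemp, finsum_mem_empty]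

end Pool.Agent.LibEP66
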