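import Pool.Agent.LibEP66.E1
import Pool.Agent.LibEP66.B2

/-!
[EP66 E2] the converse for combinations of symbols of several types. Proof: exactly `converse` (end of
LibCV66/C6.lean) with the family `F`, `l`, `ξ` indexed by `μ`. `J := c.support`, `η` the image of `ξ μ` in the algebraic
closure of `F μ`; `phi_torsion` gives that the sum over `p ∈ c.support` of `c p • Phi (cyc (lin ..))` has finite
order. For `p.1 = μ` (use `obtain ⟨ν, N, g⟩ := p` and `subst`) use `phi_lin`; for `p.1 ≠ μ` use `phi_ne`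
(`exists_lt`; `V a = E j` iff `μ a = j`, as `E` over `Qb` is injective) and note that `det (Mᵀ N) = 0` (`det_ne`), so that
all the statements of `phi_lin` hold for `p.1 ≠ μ` as well. `deriv_hom` (LibCV66/C3) is applied to the symbols
with `p.1 = μ` (a `Finset.filter`, or multiplicities `m j = 0` for the others).
-/

open WeierstrassCurve Pool.Agent.LibBH2 Pool.Agent.LibIG50 Pool.Agent.LibCHd Pool.Agent.LibGG
  Pool.Agent.LibAC34 Pool.Agent.LibER66 Pool.Agent.LibCV66
open scoped Classical

namespace Pool.Agent.LibEP66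

variable {K : Type} [Field K] [Algebra K Qb] {s r D : ℕ}

private theorem E2_inj {E : Fin s → WeierstrassCurve K} (hinj : Function.Injective E) {i j : Fin s}
    (h : (E i)⁄Qb = (E j)⁄Qb) : i = j :=
  hinj (WeierstrassCurve.map_injective (algebraMap K Qb).injective h)

private theorem E2_trk_add {k : Type} [Field k] {V W : WeierstrassCurve k}
    (p q : V.toAffine.Point) : trk V W (p + q) = trk V W p + trk V W q := by
  by_cases h : V = W
  · subst h
    rw [trk_self, trk_self, trk_self]
  · rw [trk_ne h, trk_ne h, trk_ne h, add_zero]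

private theorem E2_bdet_add {k : Type} [Field k] {r D : ℕ} {W : Fin r → WeierstrassCurve k}
    (E : WeierstrassCurve k) (M : Matrix (Fin r) (Fin D) ℤ) (z : Fin r → ℤ)
    (N : Matrix (Fin r) (Fin D) ℤ) (g g' : Pts W) :
    bdet E M z N (g + g') = bdet E M z N g + bdet E M z N g' := by
  unfold bdet
  rw [← Finset.sum_add_distrib]
  refine Finset.sum_congr rfl fun i _ => ?_
  have h1 : (g + g') i = g i + g' i := rfl
  rw [h1, E2_trk_add, smul_add]

private theorem E2_int {x : ℤ} (h : IsOfFinAddOrder x) : x = 0 := by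
  obtain ⟨n, hn, h1⟩ := isOfFinAddOrder_iff_nsmul_eq_zero.1 h
  rw [nsmul_eq_mul] at h1
  rcases mul_eq_zero.1 h1 with h2 | h2
  · exfalso
    have h3 : n = 0 := by exact_mod_cast h2
    omega
  · exact h2

private theorem E2_cls {E : Fin s → WeierstrassCurve K} {κ : Fin r → Fin s} {Y : Prj Qb}
    {L : Type} [Field L] [Algebra Qb L] {F : (Fin D → Fin s) → Type} [∀ μ, Field (F μ)]
    [∀ μ, Algebra Qb (F μ)] (l : ∀ μ, L →ₐ[Qb] F μ) (n : ℕ)
    (ξ : ∀ μ a, ((prd E μ a)⁄(F μ)).toAffine.Point) (u : Pnt (prd E κ) Y L)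
    (c : Sy E κ D →₀ ℤ) (ht : IsOfFinAddOrder (actP l n ξ u c)) :
    IsOfFinAddOrder (QuotientAddGroup.mk
      (∑ p ∈ c.support, c p • cyc (lin (l p.1) (ξ p.1) p.2.1 p.2.2 u)) : CH (prd E κ) Y n) := by
  have h1 : (QuotientAddGroup.mk
      (∑ p ∈ c.support, c p • cyc (lin (l p.1) (ξ p.1) p.2.1 p.2.2 u)) : CH (prd E κ) Y n) =
      actP l n ξ u c := by
    have h2 := map_sum (QuotientAddGroup.mk' (RatEq (prd E κ) Y n))
      (fun p : Sy E κ D => c p • cyc (lin (l p.1) (ξ p.1) p.2.1 p.2.2 u)) c.support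
    refine h2.trans (Finset.sum_congr rfl fun p _ => ?_)
    rw [map_zsmul]
    rfl
  rw [h1]
  exact ht

/-- `Mat` in terms of the colours -/
theorem mat_iff {E : Fin s → WeierstrassCurve K} (hinj : Function.Injective E)
    {κ : Fin r → Fin s} {μ : Fin D → Fin s} {N : Matrix (Fin r) (Fin D) ℤ} :
    Mat (prd E μ) (prd E κ) N ↔ Blk κ μ N := by
  constructor
  · intro h x a hne
    exact h x a fun he => hne (E2_inj hinj he)
  · intro h x a hne
    refine h x a fun he => hne ?_
    show (E (μ a))⁄Qb = (E (κ x))⁄Qb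
    rw [he]

theorem converseP (h0 : AllDim (fun _ => ⊥)) {E : Fin s → WeierstrassCurve K}
    (hE : ∀ i, (E i).IsElliptic) (hinj : Function.Injective E) {κ : Fin r → Fin s}
    {Y : Prj Qb} {L : Type} [Field L] [Algebra Qb L] (u : Pnt (prd E κ) Y L)
    {F : (Fin D → Fin s) → Type} [∀ μ, Field (F μ)] [∀ μ, Algebra Qb (F μ)]
    (l : ∀ μ, L →ₐ[Qb] F μ) (ξ : ∀ μ a, ((prd E μ a)⁄(F μ)).toAffine.Point)
    (hξ : ∀ μ, IsGen 0 (l μ) (prd E μ) (ξ μ)) (c : Sy E κ D →₀ ℤ)
    (hc : ∀ p ∈ c.support, Monotone p.1 ∧ Mat (prd E p.1) (prd E κ) p.2.1)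
    (ht : IsOfFinAddOrder (actP l (0 + D) ξ u c)) {μ : Fin D → Fin s} (hμ : Monotone μ)
    {M : Matrix (Fin r) (Fin D) ℤ} (hM : Mat (prd E μ) (prd E κ) M) :
    (c.sum fun p n => n * (M.transpose * p.2.1).det ^ 2) = 0 ∧
      ∀ (i : Fin s) (z : Fin r → ℤ), Sup κ i z →
        IsOfFinAddOrder (c.sum fun p n =>
          (n * (M.transpose * p.2.1).det) • bdet ((E i)⁄Qb) M z p.2.1 p.2.2) := by
  have hEl : ∀ i, ((E i)⁄Qb).IsElliptic := fun i => by
    have := hE i
    infer_instance
  have hW : ∀ x, (prd E κ x).IsElliptic := fun x => hEl _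
  have hVn : ∀ (ν : Fin D → Fin s) (a : Fin D), (prd E ν a).IsElliptic := fun ν a => hEl _
  have h := hξ μ
  obtain ⟨hG, hT, hF⟩ := gen_all h
  let Ω : Type := AlgebraicClosure (F μ)
  let ι : F μ →ₐ[Qb] Ω := IsScalarTower.toAlgHom Qb (F μ) Ω
  let η : ∀ a, ((prd E μ a)⁄Ω).toAffine.Point := fun a => mp ι (ξ μ a)
  have hη : Gn η := (gn_map ι (ξ μ)).2 hG
  choose u₀ hu using fun x => const_L h.dimL (u.z x)
  have hcls : IsOfFinAddOrder (QuotientAddGroup.mk
      (∑ p ∈ c.support, c p • cyc (lin (l p.1) (ξ p.1) p.2.1 p.2.2 u)) : CH (prd E κ) Y D) := by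
    have e : ∀ n, n = D → IsOfFinAddOrder (actP l n ξ u c) → IsOfFinAddOrder (QuotientAddGroup.mk
        (∑ p ∈ c.support, c p • cyc (lin (l p.1) (ξ p.1) p.2.1 p.2.2 u)) :
          CH (prd E κ) Y D) := by
      intro n hn h1
      subst hn
      exact E2_cls l n ξ u c h1
    exact e (0 + D) (zero_add D) ht
  have main : ∀ M, Mat (prd E μ) (prd E κ) M → ∀ (E' : WeierstrassCurve Qb), E'.IsElliptic →
      ∀ (z : Fin r → ℤ), (∀ x, prd E κ x ≠ E' → z x = 0) →
      ∑ p ∈ c.support, c p * (M.transpose * p.2.1).det ^ 2 = 0 ∧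
      IsOfFinAddOrder (∑ p ∈ c.support, c p • ((M.transpose * p.2.1).det •
        (∑ a, yv M p.2.1 z a • tr (prd E μ a) E' (η a) +
          constPt Ω (bdet E' M z p.2.1 (p.2.2 + u₀))))) := by
    intro M hM E' hE' z hz
    have hex : ∀ a, ∃ β : PH (prd E κ) (prd E μ a), ∀ (G : Type) [Field G] [Algebra Qb G]
        (P : ∀ i, ((prd E κ i)⁄G).toAffine.Point),
        β.f G P = lc (prd E μ a) (fun i => M i a) P := fun a => by
      have := hVn μ a
      exact exists_lc (prd E κ) (prd E μ a) (fun i => M i a)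
    choose β hβ using hex
    obtain ⟨γ, hγ⟩ := exists_lc (prd E κ) E' z
    have h1 := phi_torsion hW (hVn μ) hE' β γ hη hcls
    rw [map_sum] at h1
    have h2 : ∀ p ∈ c.support,
        (Phi Y β γ η (cyc (lin (l p.1) (ξ p.1) p.2.1 p.2.2 u))).1 =
          (M.transpose * p.2.1).det ^ 2 ∧
        IsOfFinAddOrder ((Phi Y β γ η (cyc (lin (l p.1) (ξ p.1) p.2.1 p.2.2 u))).2 -
          (M.transpose * p.2.1).det • (∑ a, yv M p.2.1 z a • tr (prd E μ a) E' (η a) +
            constPt Ω (bdet E' M z p.2.1 (p.2.2 + u₀)))) := by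
      intro p hp
      obtain ⟨hν, hN⟩ := hc p hp
      obtain ⟨ν, N, g⟩ := p
      by_cases hne : μ = ν
      · subst hne
        exact phi_lin h0 (hVn μ) (hξ μ) u u₀ hu hη hM hN hz β γ hβ hγ g
      · have hd : (M.transpose * N).det = 0 :=
          det_ne hμ hν hne ((mat_iff hinj).1 hM) ((mat_iff hinj).1 hN)
        obtain ⟨j, hj⟩ := exists_lt hμ hν hne
        have hfil : ∀ ν' : Fin D → Fin s, (Finset.univ.filter fun a => prd E ν' a = (E j)⁄Qb) =
            Finset.univ.filter fun a => ν' a = j := by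
          intro ν'
          refine Finset.filter_congr fun a _ => ⟨fun he => E2_inj hinj he, fun he => ?_⟩
          show (E (ν' a))⁄Qb = (E j)⁄Qb
          rw [he]
        have hcard : (Finset.univ.filter fun a => prd E ν a = (E j)⁄Qb).card <
            (Finset.univ.filter fun a => prd E μ a = (E j)⁄Qb).card := by
          rw [hfil, hfil]
          exact hj
        have h3 : Phi Y β γ η (cyc (lin (l ν) (ξ ν) N g u)) = 0 :=
          phi_ne (hVn μ) (hVn ν) (hξ ν) u u₀ hu hη hM hN β γ hβ ((E j)⁄Qb) hcard g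
        show (Phi Y β γ η (cyc (lin (l ν) (ξ ν) N g u))).1 = (M.transpose * N).det ^ 2 ∧
          IsOfFinAddOrder ((Phi Y β γ η (cyc (lin (l ν) (ξ ν) N g u))).2 -
          (M.transpose * N).det • (∑ a, yv M N z a • tr (prd E μ a) E' (η a) +
            constPt Ω (bdet E' M z N (g + u₀))))
        rw [h3, hd, zero_smul, sub_zero]
        exact ⟨by simp, IsOfFinAddOrder.zero⟩
    refine ⟨?_, ?_⟩
    · have h3 := (AddMonoidHom.fst ℤ (E'⁄Ω).toAffine.Point).isOfFinAddOrder h1
      have h4 := E2_int h3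
      rw [map_sum] at h4
      rw [← h4]
      refine Finset.sum_congr rfl fun p hp => ?_
      rw [map_zsmul, AddMonoidHom.coe_fst, Prod.smul_fst, (h2 p hp).1, smul_eq_mul]
    · have h3 := (AddMonoidHom.snd ℤ (E'⁄Ω).toAffine.Point).isOfFinAddOrder h1
      rw [map_sum] at h3
      set T := AddCommGroup.torsion (E'⁄Ω).toAffine.Point with hTdef
      have h3' : ∑ p ∈ c.support, (AddMonoidHom.snd ℤ (E'⁄Ω).toAffine.Point)
          (Phi Y β γ η (c p • cyc (lin (l p.1) (ξ p.1) p.2.1 p.2.2 u))) ∈ T := h3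
      have h4 : ∑ p ∈ c.support, c p •
          ((Phi Y β γ η (cyc (lin (l p.1) (ξ p.1) p.2.1 p.2.2 u))).2 -
          (M.transpose * p.2.1).det • (∑ a, yv M p.2.1 z a • tr (prd E μ a) E' (η a) +
          constPt Ω (bdet E' M z p.2.1 (p.2.2 + u₀)))) ∈ T :=
        AddSubgroup.sum_mem _ fun p hp => AddSubgroup.zsmul_mem _ (h2 p hp).2 _
      have h5 := AddSubgroup.sub_mem _ h3' h4
      have h6 : ∑ p ∈ c.support, (AddMonoidHom.snd ℤ (E'⁄Ω).toAffine.Point)
          (Phi Y β γ η (c p • cyc (lin (l p.1) (ξ p.1) p.2.1 p.2.2 u))) -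
          ∑ p ∈ c.support, c p •
          ((Phi Y β γ η (cyc (lin (l p.1) (ξ p.1) p.2.1 p.2.2 u))).2 -
          (M.transpose * p.2.1).det • (∑ a, yv M p.2.1 z a • tr (prd E μ a) E' (η a) +
          constPt Ω (bdet E' M z p.2.1 (p.2.2 + u₀)))) =
          ∑ p ∈ c.support, c p • ((M.transpose * p.2.1).det •
          (∑ a, yv M p.2.1 z a • tr (prd E μ a) E' (η a) +
          constPt Ω (bdet E' M z p.2.1 (p.2.2 + u₀)))) := by
        rw [← Finset.sum_sub_distrib]
        refine Finset.sum_congr rfl fun p _ => ?_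
        rw [map_zsmul, AddMonoidHom.coe_snd, Prod.smul_snd, smul_sub]
        abel
      rw [h6] at h5
      exact h5
  have hhom : ∀ M, Mat (prd E μ) (prd E κ) M →
      ∑ p ∈ c.support, c p * (M.transpose * p.2.1).det ^ 2 = 0 := fun M hM =>
    (main M hM (WeierstrassCurve.ofJ 0) inferInstance (fun _ => 0) fun _ _ => rfl).1
  refine ⟨hhom M hM, ?_⟩
  intro i z hz'
  have hder : ∀ {E' : WeierstrassCurve Qb} {z : Fin r → ℤ}, (∀ x, prd E κ x ≠ E' → z x = 0) →
      ∀ a, prd E μ a = E' → ∑ p ∈ c.support,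
        c p * ((M.transpose * p.2.1).det * yv M p.2.1 z a) = 0 := by
    intro E' z hz a ha
    have h1 := deriv_hom (V := prd E μ) (W := prd E κ) (J := ↥c.support) (fun p => c p.1)
      (fun p => p.1.2.1) (fun M hM => by
        rw [← hhom M hM]
        exact Finset.sum_coe_sort c.support
          (fun p : Sy E κ D => c p * (M.transpose * p.2.1).det ^ 2)) hM hz ha
    rw [← h1]
    exact (Finset.sum_coe_sort c.support
      (fun p : Sy E κ D => c p * ((M.transpose * p.2.1).det * yv M p.2.1 z a))).symm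
  have hz : ∀ x, prd E κ x ≠ (E i)⁄Qb → z x = 0 := by
    intro x hx
    refine hz' x fun he => hx ?_
    show (E (κ x))⁄Qb = (E i)⁄Qb
    rw [he]
  obtain ⟨E', hE'⟩ : ∃ E' : WeierstrassCurve Qb, E' = (E i)⁄Qb := ⟨_, rfl⟩
  have hEe : E'.IsElliptic := by
    rw [hE']
    exact hEl i
  rw [← hE'] at hz ⊢
  have h1 := (main M hM E' hEe z hz).2
  have h2 : ∑ p ∈ c.support, c p • ((M.transpose * p.2.1).det •
      (∑ a, yv M p.2.1 z a • tr (prd E μ a) E' (η a) +
        constPt Ω (bdet E' M z p.2.1 (p.2.2 + u₀)))) =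
      constHom Ω E' (∑ p ∈ c.support, (c p * (M.transpose * p.2.1).det) •
        bdet E' M z p.2.1 (p.2.2 + u₀)) := by
    have h3 : ∑ p ∈ c.support, c p • ((M.transpose * p.2.1).det •
        ∑ a, yv M p.2.1 z a • tr (prd E μ a) E' (η a)) = 0 := by
      have h4 : ∀ p ∈ c.support, c p • ((M.transpose * p.2.1).det •
          ∑ a, yv M p.2.1 z a • tr (prd E μ a) E' (η a)) =
          ∑ a, (c p * ((M.transpose * p.2.1).det * yv M p.2.1 z a)) •
            tr (prd E μ a) E' (η a) := by
        intro p _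
        rw [Finset.smul_sum, Finset.smul_sum]
        refine Finset.sum_congr rfl fun a _ => ?_
        rw [mul_smul, mul_smul]
      rw [Finset.sum_congr rfl h4, Finset.sum_comm]
      refine Finset.sum_eq_zero fun a _ => ?_
      rw [← Finset.sum_smul]
      by_cases ha : prd E μ a = E'
      · rw [hder hz a ha, zero_smul]
      · rw [tr_ne ha, smul_zero]
    rw [map_sum]
    have h5 : ∀ p ∈ c.support, c p • ((M.transpose * p.2.1).det •
        (∑ a, yv M p.2.1 z a • tr (prd E μ a) E' (η a) +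
          constPt Ω (bdet E' M z p.2.1 (p.2.2 + u₀)))) =
        c p • ((M.transpose * p.2.1).det •
          ∑ a, yv M p.2.1 z a • tr (prd E μ a) E' (η a)) +
        constHom Ω E' ((c p * (M.transpose * p.2.1).det) •
          bdet E' M z p.2.1 (p.2.2 + u₀)) := by
      intro p _
      rw [map_zsmul, constHom_apply, mul_smul, smul_add, smul_add]
    rw [Finset.sum_congr rfl h5, Finset.sum_add_distrib, h3, zero_add]
  rw [h2] at h1
  have h6 := (Function.Injective.isOfFinAddOrder_iff
    (LibBH2.constPt_injective Ω E')).1 h1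
  have h7 : ∑ p ∈ c.support, (c p * (M.transpose * p.2.1).det) • bdet E' M z p.2.1 u₀ = 0 := by
    have h8 : ∀ p ∈ c.support, (c p * (M.transpose * p.2.1).det) • bdet E' M z p.2.1 u₀ =
        ∑ x, (c p * (M.transpose * p.2.1).det *
          ((bd M z).transpose * bd p.2.1 (Pi.single x 1)).det) •
            trk (prd E κ x) E' (u₀ x) := by
      intro p _
      unfold bdet
      rw [Finset.smul_sum]
      refine Finset.sum_congr rfl fun x _ => ?_
      rw [← mul_smul]
    rw [Finset.sum_congr rfl h8, Finset.sum_comm]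
    refine Finset.sum_eq_zero fun x _ => ?_
    rw [← Finset.sum_smul]
    by_cases hx : prd E κ x = E'
    · have h9 : ∀ p ∈ c.support, c p * (M.transpose * p.2.1).det *
          ((bd M z).transpose * bd p.2.1 (Pi.single x 1)).det =
          (c p * (M.transpose * p.2.1).det ^ 2) * z x -
            ∑ a, (c p * ((M.transpose * p.2.1).det * yv M p.2.1 z a)) * M x a := by
        intro p _
        have e1 : dotProduct z (Pi.single x 1) = z x := by
          rw [dotProduct_single, mul_one]
        have e2 : Matrix.mulVec M.transpose (Pi.single x 1) = fun a => M x a := by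
          funext a
          rw [Matrix.mulVec_single_one]
          rfl
        rw [det_bordered, e1, e2]
        have e3 : dotProduct (yv M p.2.1 z) (fun a => M x a) =
            ∑ a, yv M p.2.1 z a * M x a := rfl
        rw [e3, mul_sub, Finset.mul_sum]
        congr 1
        · ring
        · refine Finset.sum_congr rfl fun a _ => ?_
          ring
      rw [Finset.sum_congr rfl h9, Finset.sum_sub_distrib, ← Finset.sum_mul,
        hhom M hM, zero_mul, zero_sub, Finset.sum_comm]
      have h10 : ∑ a, ∑ p ∈ c.support,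
          (c p * ((M.transpose * p.2.1).det * yv M p.2.1 z a)) * M x a = 0 := by
        refine Finset.sum_eq_zero fun a _ => ?_
        rw [← Finset.sum_mul]
        by_cases ha : prd E μ a = E'
        · rw [hder hz a ha, zero_mul]
        · rw [hM x a (by rw [hx]; exact ha), mul_zero]
      rw [h10, neg_zero, zero_smul]
    · rw [trk_ne hx, smul_zero]
  have h11 : ∑ p ∈ c.support, (c p * (M.transpose * p.2.1).det) •
      bdet E' M z p.2.1 (p.2.2 + u₀) =
      ∑ p ∈ c.support, (c p * (M.transpose * p.2.1).det) • bdet E' M z p.2.1 p.2.2 := by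
    have h12 : ∀ p ∈ c.support, (c p * (M.transpose * p.2.1).det) •
        bdet E' M z p.2.1 (p.2.2 + u₀) =
        (c p * (M.transpose * p.2.1).det) • bdet E' M z p.2.1 p.2.2 +
        (c p * (M.transpose * p.2.1).det) • bdet E' M z p.2.1 u₀ := by
      intro p _
      rw [E2_bdet_add, smul_add]
    rw [Finset.sum_congr rfl h12, Finset.sum_add_distrib, h7, add_zero]
  rw [h11] at h6
  exact h6

end Pool.Agent.LibEP66
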