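import Pool.Agent.LibEP66.Defs
import Pool.Agent.LibER66.Main
import Pool.Agent.LibRk1.Clique

/-!
[EP66 S1] the infinite set of curves of rank one. `Γ W`: the saturation (or just the group) of the points
`constPt Qb P`, `P` in `W₀(ℚ)`, if `W = W₀⁄Qb` with `W₀ ∈ rkSet`, and `⊥` otherwise. `Pw Γ`: for
`W₀, W₀' ∈ rkSet` the zero-cycle `zc P Q` is torsion for all rational `P`, `Q`: `rkSet_finite` (LibRk1) for
`W = ![W₀, W₀']`: the classes of the multiples of `(P, Q) - (P, 0) - (0, Q) + (0, 0)` (degree zero, sums zero) are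
in a finite set; see the old AllDegreesClique (git log -p, LibIG50/LibAD34 ..) and `exists_rank_one`
(LibER66/RankOne.lean) for the construction of the grid; `pwC_of_pw`, `rk_GK` (LibER66/Main.lean).
-/

open WeierstrassCurve Pool.Agent.LibBH2 Pool.Agent.LibIG50 Pool.Agent.LibCHd Pool.Agent.LibGG
  Pool.Agent.LibAC34 Pool.Agent.LibAF11 Pool.Agent.LibER66 Rk1
open scoped Classical

namespace Pool.Agent.LibEP66

theorem rank_irrel {F : Type} [Field F] (W : WeierstrassCurve F) (d d' : DecidableEq F)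
    (h : (letI := d; Module.rank ℤ W.toAffine.Point) = 1) :
    (letI := d'; Module.rank ℤ W.toAffine.Point) = 1 := by
  have h1 : d = d' := Subsingleton.elim _ _
  subst h1
  exact h

theorem exists_rkSet : ∃ Γ : Grid, PwC Γ ∧ ∀ W ∈ rkSet, rk (GK (K := ℚ) Γ W) = 1 ∧
    ∀ P : W.toAffine.Point, constPt Qb P ∈ Γ (W⁄Qb) := by
  let Γ : Grid := fun W => if h : ∃ W₀ : WeierstrassCurve ℚ, W₀ ∈ rkSet ∧ W₀⁄Qb = W then
    h.choose_spec.2 ▸ (constHom Qb h.choose).range else ⊥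
  have hcast : ∀ (W₁ W₀ : WeierstrassCurve ℚ) (h : W₁⁄Qb = W₀⁄Qb),
      (h ▸ (constHom Qb W₁).range : AddSubgroup (W₀⁄Qb).toAffine.Point) =
        (constHom Qb W₀).range := by
    intro W₁ W₀ h
    have h1 : W₁ = W₀ := WeierstrassCurve.map_injective (algebraMap ℚ Qb).injective h
    subst h1
    rfl
  have hΓ : ∀ W₀ ∈ rkSet, Γ (W₀⁄Qb) = (constHom Qb W₀).range := by
    intro W₀ hW₀
    have h : ∃ W₁ : WeierstrassCurve ℚ, W₁ ∈ rkSet ∧ W₁⁄Qb = W₀⁄Qb := ⟨W₀, hW₀, rfl⟩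
    have h1 : Γ (W₀⁄Qb) = h.choose_spec.2 ▸ (constHom Qb h.choose).range := dif_pos h
    rw [h1]
    exact hcast _ _ _
  have hbot : ∀ W, (¬ ∃ W₀ : WeierstrassCurve ℚ, W₀ ∈ rkSet ∧ W₀⁄Qb = W) → Γ W = ⊥ :=
    fun W h => dif_neg h
  refine ⟨Γ, pwC_of_pw ?_, fun W hW => ?_⟩
  · intro W W' hW hW' P hP Q hQ
    by_cases h1 : ∃ W₀ : WeierstrassCurve ℚ, W₀ ∈ rkSet ∧ W₀⁄Qb = W
    · by_cases h2 : ∃ W₀ : WeierstrassCurve ℚ, W₀ ∈ rkSet ∧ W₀⁄Qb = W'
      · obtain ⟨W₀, hW₀, rfl⟩ := h1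
        obtain ⟨W₁, hW₁, rfl⟩ := h2
        rw [hΓ W₀ hW₀] at hP
        rw [hΓ W₁ hW₁] at hQ
        obtain ⟨R, rfl⟩ := hP
        obtain ⟨S, rfl⟩ := hQ
        exact rkSet_zc hW₀ hW₁ R S
      · rw [hbot W' h2] at hQ
        rw [AddSubgroup.mem_bot.1 hQ, zc_zero_right]
        exact IsOfFinAddOrder.zero
    · rw [hbot W h1] at hP
      rw [AddSubgroup.mem_bot.1 hP, zc_zero_left]
      exact IsOfFinAddOrder.zero
  · have h1 : ∀ P : W.toAffine.Point, constPt Qb P ∈ Γ (W⁄Qb) := by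
      intro P
      rw [hΓ W hW]
      exact ⟨P, rfl⟩
    refine ⟨?_, h1⟩
    rw [rk_GK ℚ W h1]
    have h2 : Module.rank ℤ W.toAffine.Point = 1 :=
      Module.rank_eq_one_iff_finrank_eq_one.2 (rkSet_rank hW).2.2
    exact rank_irrel W _ _ h2

end Pool.Agent.LibEP66
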