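import Pool.Agent.LibEP66.M2
import Pool.Agent.LibEP66.S1

/-!
The theorem.
-/

open WeierstrassCurve Pool.Agent.LibBH2 Pool.Agent.LibIG50 Pool.Agent.LibCHd Pool.Agent.LibGG
  Pool.Agent.LibAC34 Pool.Agent.LibAF11 Pool.Agent.LibER66
open scoped Classical

namespace Pool.Agent.LibEP66

theorem exactRankP {Γ : Grid} (h : Pw Γ) (K : Type) [Field K] [NumberField K] [Algebra K Qb] :
    ExactRankP K Γ :=
  exactP K (LibAC6.all_dim (LibAC34.pw_orth h)) (LibAC6.all_dim (LibAC34.pw_orth (pw_bot h)))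

theorem exact_products :
    (∀ Γ : Grid, PwC Γ → ∀ (K : Type) [Field K] [NumberField K] [Algebra K Qb],
      ExactRankP K Γ) ∧
    (∃ S : Set (WeierstrassCurve ℚ), S.Infinite ∧
      (∀ W ∈ S, ∀ W' ∈ S, W ≠ W' → ∃ l : ℕ, l.Prime ∧
        padicValRat l (W.c₄ ^ 3 / W.Δ) < 0 ∧ 0 ≤ padicValRat l (W'.c₄ ^ 3 / W'.Δ)) ∧
      ∃ Γ : Grid, PwC Γ ∧ ∀ W ∈ S, W.Δ ≠ 0 ∧ Module.rank ℤ W.toAffine.Point = 1 ∧
        rk (GK Γ W) = 1 ∧ ∀ P : W.toAffine.Point, constPt Qb P ∈ Γ (W⁄Qb)) ∧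
    (∀ (K : Type) [Field K] [NumberField K] [Algebra K Qb] (E : WeierstrassCurve K)
      [E.IsElliptic], Module.rank ℤ E.toAffine.Point ≤ 1 →
      ∃ Γ : Grid, PwC Γ ∧ rk (GK Γ E) = Module.rank ℤ E.toAffine.Point ∧
        ∀ P : E.toAffine.Point, constPt Qb P ∈ Γ (E⁄Qb)) ∧
    ∀ (K : Type) [Field K] [NumberField K] [Algebra K Qb] (E₀ : WeierstrassCurve K)
      [E₀.IsElliptic] (T P : E₀.toAffine.Point), T ≠ 0 → 2 • T = 0 →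
      ∃ Γ : Grid, PwC Γ ∧ constPt Qb P ∈ Γ (E₀⁄Qb) ∧ InfRank Γ ∧ Stable K Γ := by
  refine ⟨fun _ h K _ _ _ => exactRankP (pw_of_pwC h) K, ?_, exact_ranks.2.1, exact_ranks.2.2⟩
  obtain ⟨Γ, h1, h2⟩ := exists_rkSet
  refine ⟨Rk1.rkSet, Rk1.rkSet_infinite, fun _ h _ h' hne => Rk1.rkSet_nonisog h h' hne, Γ, h1,
    fun W hW => ⟨(Rk1.rkSet_rank hW).1, ?_, (h2 W hW).1, (h2 W hW).2⟩⟩
  exact Cardinal.toNat_eq_one.1 (Rk1.rkSet_rank hW).2.2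

end Pool.Agent.LibEP66
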