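import Pool.Agent.LibEP66.GDefs

/-!
[EP66 G0] a kernel given by vectors has a Gram system (linear algebra over `ℚ`, only Mathlib). Proof: by
`Submodule.exists_fun_fin_finrank_span_eq` choose `p i` such that the `T (p i)` are a basis of the span `U` of
all `T p` (compare `exists_tests` in LibCV66/R1.lean, which also clears the denominators of the
coefficients `c`: copy that). The Gram matrix `G i j = ∑ x, T (p i) x * T (p j) x` is invertible: `vecMul c G = 0`
gives `∑ x, (∑ i, c i T (p i) x) ^ 2 = 0`, so `c = 0`. With `G' i j = k (p i) (p j)` (integral, its determinant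
is not zero) take `N = det G'` and `a = ` (the transpose of) the adjugate.
-/

open scoped Classical

namespace Pool.Agent.LibEP66

private theorem G0_den {ι : Type} [Fintype ι] (c : ι → ℚ) :
    ∃ (n : ℕ) (m : ι → ℤ), n ≠ 0 ∧ ∀ i, (m i : ℚ) = n * c i := by
  let n : ℕ := ∏ i, (c i).den
  have hn : n ≠ 0 := Finset.prod_ne_zero_iff.2 fun i _ => (c i).den_nz
  have h2 : ∀ i, ∃ m : ℤ, (m : ℚ) = n * c i := by
    intro i
    refine ⟨(∏ j ∈ Finset.univ.erase i, ((c j).den : ℤ)) * (c i).num, ?_⟩
    have h3 : (n : ℚ) = (c i).den * ∏ j ∈ Finset.univ.erase i, ((c j).den : ℚ) := by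
      have h4 := Finset.mul_prod_erase Finset.univ (fun j => (c j).den) (Finset.mem_univ i)
      rw [← Nat.cast_prod, ← Nat.cast_mul, h4]
    rw [h3]
    push_cast
    have h5 : ((c i).den : ℚ) * c i = (c i).num := by
      rw [mul_comm]
      exact Rat.mul_den_eq_num (c i)
    calc _ = (∏ j ∈ Finset.univ.erase i, ((c j).den : ℚ)) * ((c i).num : ℚ) := rfl
      _ = _ := by rw [← h5]; ring
  choose m hm using h2
  exact ⟨n, m, hn, hm⟩

theorem good_of_vec {P : Type} {k : P → P → ℤ} {X : Type} [Fintype X] (T : P → X → ℚ)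
    (hk : ∀ p q, (k p q : ℚ) = ∑ x, T p x * T q x) :
    Good k (Fin (Module.finrank ℚ (Submodule.span ℚ (Set.range T)))) := by
  obtain ⟨f, hf, hsp, hli⟩ := Submodule.exists_fun_fin_finrank_span_eq ℚ (Set.range T)
  choose p hp using hf
  have hsym : ∀ x y, k x y = k y x := by
    intro x y
    have h1 : (k x y : ℚ) = k y x := by
      rw [hk, hk]
      exact Finset.sum_congr rfl fun z _ => mul_comm _ _
    exact_mod_cast h1
  let G : Matrix (Fin (Module.finrank ℚ (Submodule.span ℚ (Set.range T))))
    (Fin (Module.finrank ℚ (Submodule.span ℚ (Set.range T)))) ℤ := fun i j => k (p i) (p j)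
  have hdet : G.det ≠ 0 := by
    intro h0
    have h1 : (G.map (Int.castRingHom ℚ)).det = 0 := by
      have h2 := RingHom.map_det (Int.castRingHom ℚ) G
      rw [h0, map_zero] at h2
      exact h2.symm
    obtain ⟨v, hv, hv0⟩ := Matrix.exists_vecMul_eq_zero_iff.2 h1
    apply hv
    have h3 : ∑ x, (∑ i, v i * T (p i) x) ^ 2 = 0 := by
      have h4 : ∑ x, (∑ i, v i * T (p i) x) ^ 2 =
          ∑ j, (∑ i, v i * (k (p i) (p j) : ℚ)) * v j := by
        have h5 : ∀ i j, (k (p i) (p j) : ℚ) = ∑ x, T (p i) x * T (p j) x := fun i j => hk _ _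
        simp_rw [h5]
        calc ∑ x, (∑ i, v i * T (p i) x) ^ 2
            = ∑ x, ∑ j, ∑ i, v i * (T (p i) x * T (p j) x) * v j := by
              refine Finset.sum_congr rfl fun x _ => ?_
              rw [sq, Finset.mul_sum]
              refine Finset.sum_congr rfl fun j _ => ?_
              rw [Finset.sum_mul]
              refine Finset.sum_congr rfl fun i _ => ?_
              ring
          _ = ∑ j, ∑ x, ∑ i, v i * (T (p i) x * T (p j) x) * v j := Finset.sum_comm
          _ = ∑ j, (∑ i, v i * ∑ x, T (p i) x * T (p j) x) * v j := by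
              refine Finset.sum_congr rfl fun j _ => ?_
              rw [Finset.sum_mul, Finset.sum_comm]
              refine Finset.sum_congr rfl fun i _ => ?_
              rw [Finset.mul_sum, Finset.sum_mul]
      rw [h4]
      refine Finset.sum_eq_zero fun j _ => ?_
      have h6 := congrFun hv0 j
      have h7 : ∑ i, v i * (k (p i) (p j) : ℚ) = 0 := h6
      rw [h7, zero_mul]
    have h8 : ∑ i, v i • f i = 0 := by
      funext x
      have h9 := (Finset.sum_eq_zero_iff_of_nonneg (fun x _ => sq_nonneg _)).1 h3 x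
        (Finset.mem_univ x)
      have h10 := pow_eq_zero_iff (n := 2) (by norm_num) |>.1 h9
      rw [Finset.sum_apply, Pi.zero_apply, ← h10]
      refine Finset.sum_congr rfl fun i _ => ?_
      rw [Pi.smul_apply, smul_eq_mul, ← hp i]
    funext i
    exact Fintype.linearIndependent_iff.1 hli v h8 i
  refine ⟨p, G.det, fun i t => G.adjugate i t, hdet, fun i i' => ?_, fun x => ?_⟩
  · have h1 := congrFun (congrFun (Matrix.adjugate_mul G) i) i'
    rw [Matrix.mul_apply, Matrix.smul_apply, Matrix.one_apply, smul_eq_mul, mul_ite, mul_one,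
      mul_zero] at h1
    have h2 : ∑ t, G.adjugate i t * k (p i') (p t) = ∑ t, G.adjugate i t * G t i' := by
      refine Finset.sum_congr rfl fun t _ => ?_
      rw [hsym (p i') (p t)]
    refine h2.trans ?_
    by_cases hi : i = i'
    · rw [if_pos hi] at h1 ⊢
      exact h1
    · rw [if_neg hi] at h1 ⊢
      exact h1
  · have h1 : T x ∈ Submodule.span ℚ (Set.range f) := by
      rw [hsp]
      exact Submodule.subset_span ⟨x, rfl⟩
    rw [Submodule.mem_span_range_iff_exists_fun] at h1
    obtain ⟨c, hc⟩ := h1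
    obtain ⟨n, m, hn, hm⟩ := G0_den c
    refine ⟨n, m, by exact_mod_cast hn, fun q => ?_⟩
    have h7 : ((n : ℤ) * k q x : ℚ) = ∑ i, (m i : ℚ) * (k q (p i) : ℚ) := by
      rw [hk q x, ← hc]
      simp_rw [hm, hk, hp]
      rw [Finset.mul_sum]
      have h8 : ∀ y, ((n : ℤ) : ℚ) * (T q y * (∑ i, c i • f i) y) =
          ∑ i, (n : ℚ) * c i * (T q y * f i y) := by
        intro y
        rw [Finset.sum_apply, Finset.mul_sum, Finset.mul_sum]
        refine Finset.sum_congr rfl fun i _ => ?_
        rw [Pi.smul_apply, smul_eq_mul]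
        push_cast
        ring
      rw [Finset.sum_congr rfl fun y _ => h8 y, Finset.sum_comm]
      refine Finset.sum_congr rfl fun i _ => ?_
      rw [Finset.mul_sum]
    exact_mod_cast h7

end Pool.Agent.LibEP66
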