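import Pool.Agent.LibEP66.Defs
import Pool.Agent.LibMul34.Fin

/-!
Gram systems and blocks of matrices: definitions.
-/

open WeierstrassCurve Pool.Agent.LibBH2 Pool.Agent.LibIG50 Pool.Agent.LibCHd Pool.Agent.LibGG
  Pool.Agent.LibAC34 Pool.Agent.LibER66
open scoped Classical

namespace Pool.Agent.LibEP66

/-- A Gram system for the integral kernel `k`: points `p i`, whose Gram matrix is invertible over the
rational numbers (`a` is its inverse, multiplied by `N`), such that every function `k (·, x)` is a rational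
combination of the functions `k (·, p i)`. -/
def Good {P : Type} (k : P → P → ℤ) (ι : Type) [Fintype ι] : Prop :=
  ∃ (p : ι → P) (N : ℤ) (a : ι → ι → ℤ), N ≠ 0 ∧
    (∀ i i', ∑ t, a i t * k (p i') (p t) = if i = i' then N else 0) ∧
    ∀ x, ∃ (m : ℤ) (c : ι → ℤ), m ≠ 0 ∧ ∀ q, m * k q x = ∑ i, c i * k q (p i)

variable {s r D : ℕ}

/-- the entries of `N` between different colours are zero -/
def Blk (κ : Fin r → Fin s) (μ : Fin D → Fin s) (N : Matrix (Fin r) (Fin D) ℤ) : Prop :=
  ∀ x a, μ a ≠ κ x → N x a = 0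

/-- the vector `w` is zero outside the colour `i` -/
def Sup (κ : Fin r → Fin s) (i : Fin s) (w : Fin r → ℤ) : Prop := ∀ x, κ x ≠ i → w x = 0

/-- the indices of the colour `j` -/
noncomputable def ix {n : ℕ} (κ : Fin n → Fin s) (j : Fin s) : Fin (num κ j) ≃ {x // κ x = j} :=
  Fintype.equivOfCardEq (by
    rw [Fintype.card_fin, Fintype.card_subtype, num])

/-- the block of the colour `j` of a matrix -/
noncomputable def blk (κ : Fin r → Fin s) (μ : Fin D → Fin s) (j : Fin s)
    (N : Matrix (Fin r) (Fin D) ℤ) : Matrix (Fin (num κ j)) (Fin (num μ j)) ℤ :=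
  fun x a => N (ix κ j x).1 (ix μ j a).1

/-- the part of the colour `j` of a vector -/
noncomputable def vblk (κ : Fin r → Fin s) (j : Fin s) (w : Fin r → ℤ) : Fin (num κ j) → ℤ :=
  fun x => w (ix κ j x).1

/-- the matrix with given blocks -/
noncomputable def glue (κ : Fin r → Fin s) (μ : Fin D → Fin s)
    (B : ∀ j, Matrix (Fin (num κ j)) (Fin (num μ j)) ℤ) : Matrix (Fin r) (Fin D) ℤ :=
  fun x a => if h : μ a = κ x then B (κ x) ((ix κ (κ x)).symm ⟨x, rfl⟩) ((ix μ (κ x)).symm ⟨a, h⟩)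
    else 0

/-- the vector with the part `v` of the colour `i` and zero elsewhere -/
noncomputable def vglue (κ : Fin r → Fin s) (i : Fin s) (v : Fin (num κ i) → ℤ) : Fin r → ℤ :=
  fun x => if h : κ x = i then v ((ix κ i).symm ⟨x, h⟩) else 0

/-- the symbols of the colour `i` -/
def PP (κ : Fin r → Fin s) (D : ℕ) (i : Fin s) : Type :=
  {q : (Fin D → Fin s) × Matrix (Fin r) (Fin D) ℤ × (Fin r → ℤ) //
    Monotone q.1 ∧ Blk κ q.1 q.2.1 ∧ Sup κ i q.2.2}

/-- the kernel on them -/
def kp {κ : Fin r → Fin s} {i : Fin s} (p q : PP κ D i) : ℤ := LibMul34.kf p.1.2 q.1.2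

end Pool.Agent.LibEP66
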