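import Pool.Agent.LibEP66.E2
import Pool.Agent.LibCV66.R2

/-!
The exact rank on products of elliptic curves.
-/

open WeierstrassCurve Pool.Agent.LibBH2 Pool.Agent.LibIG50 Pool.Agent.LibCHd Pool.Agent.LibGG
  Pool.Agent.LibAC34 Pool.Agent.LibER66
open scoped Classical

namespace Pool.Agent.LibEP66

variable {K : Type} [Field K] [Algebra K Qb] {s r D : ℕ} {E : Fin s → WeierstrassCurve K}
  {κ : Fin r → Fin s}

/-- the test `q` of the colour `i` -/
noncomputable def tst (E : Fin s → WeierstrassCurve K) {κ : Fin r → Fin s} (i : Fin s)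
    (q : PP κ D i) : (Sy E κ D →₀ ℤ) →+ ((E i)⁄Qb).toAffine.Point :=
  Finsupp.liftAddHom fun p => zmultiplesHom _
    ((q.1.2.1.transpose * p.2.1).det • bdet ((E i)⁄Qb) q.1.2.1 q.1.2.2 p.2.1 p.2.2)

theorem tst_apply (i : Fin s) (q : PP κ D i) (c : Sy E κ D →₀ ℤ) :
    tst E i q c = c.sum fun p n =>
      n • ((q.1.2.1.transpose * p.2.1).det • bdet ((E i)⁄Qb) q.1.2.1 q.1.2.2 p.2.1 p.2.2) := rfl

theorem tst_single (i : Fin s) (q : PP κ D i) (p : Sy E κ D) (n : ℤ) :
    tst E i q (Finsupp.single p n) =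
      n • ((q.1.2.1.transpose * p.2.1).det • bdet ((E i)⁄Qb) q.1.2.1 q.1.2.2 p.2.1 p.2.2) := by
  rw [tst_apply]
  refine Finsupp.sum_single_index ?_
  exact zero_zsmul _

theorem tst_eq (i : Fin s) (q : PP κ D i) (c : Sy E κ D →₀ ℤ) :
    tst E i q c = c.sum fun p n => (n * (q.1.2.1.transpose * p.2.1).det) •
      bdet ((E i)⁄Qb) q.1.2.1 q.1.2.2 p.2.1 p.2.2 := by
  rw [tst_apply]
  refine Finset.sum_congr rfl fun p _ => ?_
  change c p • _ = (c p * _) • _
  rw [mul_smul]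

theorem det_bdet (i : Fin s) (M N : Matrix (Fin r) (Fin D) ℤ) (z : Fin r → ℤ)
    (g : Pts (prd E κ)) :
    (M.transpose * N).det • bdet ((E i)⁄Qb) M z N g =
      ∑ x, LibMul34.kf (N, Pi.single x 1) (M, z) • trk (prd E κ x) ((E i)⁄Qb) (g x) := by
  rw [bdet, Finset.smul_sum]
  refine Finset.sum_congr rfl fun x _ => ?_
  rw [smul_smul]
  rfl

theorem sup_single {i : Fin s} {x : Fin r} (hx : κ x = i) : Sup κ i (Pi.single x 1) := by
  intro y hy
  have h1 : y ≠ x := by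
    rintro rfl
    exact hy hx
  exact Pi.single_eq_of_ne h1 1

theorem tst_relation (hinj : Function.Injective E) {ι : Type} [Fintype ι] {i : Fin s}
    {p : ι → PP κ D i} {x : PP κ D i} {m : ℤ} {a : ι → ℤ}
    (h : ∀ q, m * kp q x = ∑ j, a j * kp q (p j)) (c : Sy E κ D →₀ ℤ)
    (hc : ∀ P ∈ c.support, Monotone P.1 ∧ Blk κ P.1 P.2.1) :
    m • tst E i x c = ∑ j, a j • tst E i (p j) c := by
  simp only [tst_apply, Finsupp.sum, Finset.smul_sum]
  rw [Finset.sum_comm]
  refine Finset.sum_congr rfl fun P hP => ?_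
  have h1 : ∀ (n : ℤ) (q : PP κ D i), n • c P • ((q.1.2.1.transpose * P.2.1).det •
      bdet ((E i)⁄Qb) q.1.2.1 q.1.2.2 P.2.1 P.2.2) =
      ∑ y, (c P * (n * LibMul34.kf (P.2.1, Pi.single y 1) q.1.2)) •
        trk (prd E κ y) ((E i)⁄Qb) (P.2.2 y) := by
    intro n q
    rw [det_bdet, Finset.smul_sum, Finset.smul_sum]
    refine Finset.sum_congr rfl fun y _ => ?_
    rw [smul_smul, smul_smul]
    congr 1
    ring
  rw [h1]
  simp only [h1]
  rw [Finset.sum_comm]
  refine Finset.sum_congr rfl fun y _ => ?_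
  rw [← Finset.sum_smul]
  by_cases hy : κ y = i
  · congr 1
    have h2 := h ⟨(P.1, P.2.1, Pi.single y 1), (hc P hP).1, (hc P hP).2, sup_single hy⟩
    rw [← Finset.mul_sum]
    exact congrArg (c P * ·) h2
  · have h3 : (prd E κ y) ≠ ((E i)⁄Qb) := fun h4 => hy (hinj (baseChange_injective h4))
    rw [trk_ne h3, smul_zero, smul_zero]

/-- the group of the invariant combinations -/
noncomputable def ZP0g (Γ : Grid) (E : Fin s → WeierstrassCurve K) (κ : Fin r → Fin s) (D : ℕ) :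
    AddSubgroup (Sy E κ D →₀ ℤ) where
  carrier := ZP0 Γ E κ D
  zero_mem' := ⟨⟨fun a ha => by simp at ha, fun σ => Finsupp.mapDomain_zero⟩, fun μ M _ => rfl⟩
  add_mem' := by
    rintro c c' ⟨⟨h1, h2⟩, h3⟩ ⟨⟨h1', h2'⟩, h3'⟩
    refine ⟨⟨fun a ha => ?_, fun σ => ?_⟩, fun μ M hM => ?_⟩
    · rcases Finset.mem_union.1 (Finsupp.support_add ha) with h | h
      · exact h1 a h
      · exact h1' a h
    · rw [Finsupp.mapDomain_add, h2, h2']
    · rw [Finsupp.sum_add_index' (fun _ => zero_mul _) (fun _ _ _ => add_mul _ _ _), h3 μ M hM,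
        h3' μ M hM, add_zero]
  neg_mem' := by
    rintro c ⟨⟨h1, h2⟩, h3⟩
    refine ⟨⟨fun a ha => h1 a (by rwa [Finsupp.support_neg] at ha), fun σ => ?_⟩,
      fun μ M hM => ?_⟩
    · have h5 := (Finsupp.mapDomain.addMonoidHom (M := ℤ)
        (fun (p : Sy E κ D) => ((p.1, p.2.1, fun x => gal σ (p.2.2 x)) : Sy E κ D))).map_neg c
      change Finsupp.mapDomain _ (-c) = - Finsupp.mapDomain _ c at h5
      rw [h5, h2]
    · rw [Finsupp.sum_neg_index (fun _ => zero_mul _)]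
      simp only [neg_mul]
      rw [Finsupp.sum, Finset.sum_neg_distrib, neg_eq_zero]
      exact h3 μ M hM

theorem trk_mem {Γ : Grid} {W W' : WeierstrassCurve Qb} {p : W.toAffine.Point} (hp : p ∈ Γ W) :
    trk W W' p ∈ Γ W' := by
  by_cases h : W = W'
  · subst h
    rwa [trk_self]
  · rw [trk_ne h]
    exact zero_mem _

theorem bdet_mem {Γ : Grid} {W : Fin r → WeierstrassCurve Qb} (E : WeierstrassCurve Qb)
    (M N : Matrix (Fin r) (Fin D) ℤ) (z : Fin r → ℤ) (g : Pts W) (hg : ∀ x, g x ∈ Γ (W x)) :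
    bdet E M z N g ∈ Γ E :=
  sum_mem fun x _ => zsmul_mem (trk_mem (hg x)) _

theorem tst_mem {Γ : Grid} {c : Sy E κ D →₀ ℤ} (hc : c ∈ ZP0g Γ E κ D) (i : Fin s)
    (q : PP κ D i) : tst E i q c ∈ LibCV66.GKg Γ (E i) := by
  refine ⟨?_, fun σ => ?_⟩
  · rw [tst_apply]
    exact sum_mem fun P hP => zsmul_mem (zsmul_mem (bdet_mem _ _ _ _ _
      (hc.1.1 P hP).2.2) _) _
  · have h1 : ∀ c : Sy E κ D →₀ ℤ, gal σ (tst E i q c) =
        tst E i q (c.mapDomain (fun p => (p.1, p.2.1, fun x => gal σ (p.2.2 x)))) := by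
      intro c
      induction c using Finsupp.induction_linear with
      | zero => rw [map_zero, map_zero, Finsupp.mapDomain_zero, map_zero]
      | add c c' h h' => rw [Finsupp.mapDomain_add, map_add, map_add, map_add, h, h']
      | single P n =>
        rw [Finsupp.mapDomain_single, tst_single, tst_single, map_zsmul, map_zsmul]
        congr 2
        exact gal_bdet (fun x => E (κ x)) (E i) _ _ _ _ σ
    rw [h1, hc.1.2 σ]

end Pool.Agent.LibEP66
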