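import Pool.Agent.LibEP66.M

/-!
The exact rank on products of elliptic curves.
-/

open WeierstrassCurve Pool.Agent.LibBH2 Pool.Agent.LibIG50 Pool.Agent.LibCHd Pool.Agent.LibGG
  Pool.Agent.LibAC34 Pool.Agent.LibER66
open scoped Classical

namespace Pool.Agent.LibEP66

theorem sum_zsm {M : Type*} [AddCommGroup M] {ι : Type*} [Fintype ι] (f : ι → ℤ) (z : M) :
    (∑ x, f x) • z = ∑ x, f x • z :=
  Finset.sum_smul

theorem mk_sig {s : ℕ} (f : Fin s → Type) :
    Cardinal.mk (Σ i, f i) = ∑ i, Cardinal.mk (f i) := by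
  induction s with
  | zero =>
    rw [Finset.univ_eq_empty, Finset.sum_empty]
    have : IsEmpty (Σ i, f i) := ⟨fun x => x.1.elim0⟩
    exact Cardinal.mk_eq_zero _
  | succ s ih =>
    rw [Fin.sum_univ_succ, ← ih (fun i => f i.succ)]
    have e : (Σ i, f i) ≃ f 0 ⊕ Σ i : Fin s, f i.succ :=
      { toFun := fun p => Fin.cases (motive := fun i => f i → f 0 ⊕ Σ i : Fin s, f i.succ)
          (fun x => Sum.inl x) (fun i x => Sum.inr ⟨i, x⟩) p.1 p.2
        invFun := fun q => Sum.elim (fun x => ⟨0, x⟩) (fun y => ⟨y.1.succ, y.2⟩) q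
        left_inv := by
          rintro ⟨i, x⟩
          revert x
          refine Fin.cases ?_ ?_ i
          · intro x
            rfl
          · intro j x
            rfl
        right_inv := by
          rintro (x | ⟨i, x⟩)
          · rfl
          · rfl }
    rw [Cardinal.mk_congr e, Cardinal.mk_sum, Cardinal.lift_id, Cardinal.lift_id]

variable {K : Type} [Field K] [Algebra K Qb] {s r D : ℕ} {E : Fin s → WeierstrassCurve K}
  {κ : Fin r → Fin s}

theorem tor_iff (h0 : AllDim (fun _ => ⊥)) {Γ : Grid} (h : AllDim Γ)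
    (hE : ∀ i, (E i).IsElliptic) (hinj : Function.Injective E) {Y : Prj Qb} {L : Type} [Field L]
    [Algebra Qb L] (u : Pnt (prd E κ) Y L) {F : (Fin D → Fin s) → Type} [∀ μ, Field (F μ)]
    [∀ μ, Algebra Qb (F μ)] (l : ∀ μ, L →ₐ[Qb] F μ)
    (ξ : ∀ μ a, ((prd E μ a)⁄(F μ)).toAffine.Point)
    (hξ : ∀ μ, IsGen 0 (l μ) (prd E μ) (ξ μ)) {c : Sy E κ D →₀ ℤ} (hc : c ∈ ZP0g Γ E κ D) :
    IsOfFinAddOrder (actP l (0 + D) ξ u c) ↔
      ∀ i (q : PP κ D i), IsOfFinAddOrder (tst E i q c) := by
  have hsup : ∀ p ∈ c.support, Monotone p.1 ∧ Blk κ p.1 p.2.1 := fun p hp =>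
    ⟨(hc.1.1 p hp).1, (mat_iff hinj).1 (hc.1.1 p hp).2.1⟩
  constructor
  · intro ht i q
    have h1 := (converseP h0 hE hinj u l ξ hξ c (fun p hp => ⟨(hc.1.1 p hp).1,
      (hc.1.1 p hp).2.1⟩) ht q.2.1 ((mat_iff hinj).2 q.2.2.1)).2 i q.1.2.2 q.2.2.2
    rw [tst_eq]
    exact h1
  · intro ht
    have hEe : ∀ i, ((E i)⁄Qb).IsElliptic := fun i => by
      have := hE i
      exact inferInstanceAs ((E i).map (algebraMap K Qb)).IsElliptic
    have e1 : actP l (0 + D) ξ u c = ∑ μ : Fin D → Fin s, ∑ p ∈ c.support with p.1 = μ,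
        c p • cl (V := prd E p.1) (l p.1) (0 + D) (ξ p.1) u p.2.1 p.2.2 := by
      rw [Finset.sum_fiberwise]
      rfl
    rw [e1, ← AddCommGroup.mem_torsion]
    refine sum_mem fun μ _ => ?_
    rw [AddCommGroup.mem_torsion]
    by_cases hμ : Monotone μ
    · have hJ : ∀ j : {p // p ∈ c.support.filter fun p => p.1 = μ},
          j.1 ∈ c.support ∧ j.1.1 = μ := fun j => Finset.mem_filter.1 j.2
      have e2 : ∑ p ∈ c.support with p.1 = μ,
          c p • cl (V := prd E p.1) (l p.1) (0 + D) (ξ p.1) u p.2.1 p.2.2 =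
          ∑ j : {p // p ∈ c.support.filter fun p => p.1 = μ}, c j.1 • cl (V := prd E μ) (l μ) (0 + D) (ξ μ) u
            j.1.2.1 j.1.2.2 := by
        rw [← Finset.sum_coe_sort]
        refine Finset.sum_congr rfl fun j _ => ?_
        have h1 := (Finset.mem_filter.1 j.2).2
        obtain ⟨⟨ν, N, g⟩, hj⟩ := j
        simp only at h1
        subst h1
        rfl
      have hzero : ∀ (M : Matrix (Fin r) (Fin D) ℤ), Blk κ μ M → ∀ p ∈ c.support, p.1 ≠ μ →
          (M.transpose * p.2.1).det = 0 := fun M hM p hp hne =>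
        det_ne hμ (hsup p hp).1 (Ne.symm hne) hM (hsup p hp).2
      rw [e2]
      refine h r (prd E κ) (fun _ => hEe _) D (prd E μ) (fun _ => hEe _) Y 0 L u (F μ) (l μ)
        (ξ μ) (hξ μ) {p // p ∈ c.support.filter fun p => p.1 = μ} (fun j => c j.1) (fun j => j.1.2.1) (fun j => j.1.2.2)
        (fun j => ?_) (fun j x => (hc.1.1 j.1 (hJ j).1).2.2 x) (fun M hM => ?_)
        (fun M hM E' z hz => ?_)
      · have h1 := (hc.1.1 j.1 (hJ j).1).2.1
        rw [(hJ j).2] at h1
        exact h1
      · have h1 := hc.2 μ M hM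
        rw [Finsupp.sum] at h1
        have h2 : ∑ j : {p // p ∈ c.support.filter fun p => p.1 = μ}, c j.1 * (M.transpose * j.1.2.1).det ^ 2 =
            ∑ p ∈ c.support with p.1 = μ, c p * (M.transpose * p.2.1).det ^ 2 :=
          Finset.sum_coe_sort (c.support.filter fun p => p.1 = μ)
            (fun p => c p * (M.transpose * p.2.1).det ^ 2)
        rw [h2, ← h1]
        refine Finset.sum_subset (Finset.filter_subset _ _) fun p hp hp' => ?_
        have h3 : p.1 ≠ μ := fun h4 => hp' (Finset.mem_filter.2 ⟨hp, h4⟩)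
        rw [hzero M ((mat_iff hinj).1 hM) p hp h3]
        ring
      · have h2 : ∑ j : {p // p ∈ c.support.filter fun p => p.1 = μ},
            (c j.1 * (M.transpose * j.1.2.1).det) • bdet E' M z j.1.2.1 j.1.2.2 =
            ∑ p ∈ c.support with p.1 = μ, (c p * (M.transpose * p.2.1).det) •
              bdet E' M z p.2.1 p.2.2 :=
          Finset.sum_coe_sort (c.support.filter fun p => p.1 = μ)
            (fun p => (c p * (M.transpose * p.2.1).det) • bdet E' M z p.2.1 p.2.2)
        rw [h2]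
        by_cases hE' : ∃ i, E' = (E i)⁄Qb
        · obtain ⟨i, rfl⟩ := hE'
          have hz' : Sup κ i z := by
            intro x hx
            exact hz x fun h3 => hx (hinj (baseChange_injective h3))
          have h3 := ht i ⟨(μ, M, z), hμ, (mat_iff hinj).1 hM, hz'⟩
          rw [tst_eq, Finsupp.sum] at h3
          have h4 : ∑ p ∈ c.support with p.1 = μ, (c p * (M.transpose * p.2.1).det) •
              bdet ((E i)⁄Qb) M z p.2.1 p.2.2 =
              ∑ p ∈ c.support, (c p * (M.transpose * p.2.1).det) •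
              bdet ((E i)⁄Qb) M z p.2.1 p.2.2 := by
            refine Finset.sum_subset (Finset.filter_subset _ _) fun p hp hp' => ?_
            have h5 : p.1 ≠ μ := fun h4 => hp' (Finset.mem_filter.2 ⟨hp, h4⟩)
            rw [hzero M ((mat_iff hinj).1 hM) p hp h5, mul_zero, zero_smul]
          rw [h4]
          exact h3
        · have h3 : ∀ p : Sy E κ D, bdet E' M z p.2.1 p.2.2 = 0 := by
            intro p
            rw [bdet]
            refine Finset.sum_eq_zero fun x _ => ?_
            rw [trk_ne (fun h4 => hE' ⟨κ x, h4.symm⟩), smul_zero]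
          simp only [h3, smul_zero, Finset.sum_const_zero]
          exact IsOfFinAddOrder.zero
    · have h1 : (c.support.filter fun p => p.1 = μ) = ∅ := by
        rw [Finset.filter_eq_empty_iff]
        intro p hp h2
        exact hμ (h2 ▸ (hsup p hp).1)
      rw [h1, Finset.sum_empty]
      exact IsOfFinAddOrder.zero

theorem exactP (K : Type) [Field K] [NumberField K] [Algebra K Qb] {Γ : Grid} (h : AllDim Γ)
    (h0 : AllDim (fun _ => ⊥)) : ExactRankP K Γ := by
  intro s E hE hinj r κ D Y L _ _ u F _ _ l ξ hξ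
  choose p N a hN hdual hspan using fun i => good_all κ D i
  let Z := ZP0g Γ E κ D
  let G : ∀ i : Fin s, AddSubgroup ((E i)⁄Qb).toAffine.Point := fun i => LibCV66.GKg Γ (E i)
  have hG : ∀ i, rk (GK Γ (E i)) = Module.rank ℤ (G i) := by
    intro i
    have h1 : AddSubgroup.closure (GK Γ (E i)) = G i := AddSubgroup.closure_eq (G i)
    rw [rk, h1]
  let α : (Sy E κ D →₀ ℤ) →+ CH (prd E κ) Y (0 + D) :=
    Finsupp.liftAddHom fun p => zmultiplesHom _
      (cl (V := prd E p.1) (l p.1) (0 + D) (ξ p.1) u p.2.1 p.2.2)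
  have hα : ∀ c, α c = actP l (0 + D) ξ u c := fun c => rfl
  have hcl : rk (actP l (0 + D) ξ u '' ZP0 Γ E κ D) =
      Module.rank ℤ (α.comp Z.subtype).range := by
    have h1 : AddSubgroup.closure (actP l (0 + D) ξ u '' ZP0 Γ E κ D) =
        (α.comp Z.subtype).range := by
      apply le_antisymm
      · rw [AddSubgroup.closure_le]
        rintro _ ⟨c, hc, rfl⟩
        exact ⟨⟨c, hc⟩, rfl⟩
      · rintro _ ⟨c, rfl⟩
        exact AddSubgroup.subset_closure ⟨c.1, c.2, rfl⟩
    rw [rk, h1]
  simp only [hG]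
  rw [hcl]
  have htor : ∀ c ∈ Z, IsOfFinAddOrder (α c) ↔
      ∀ i (q : PP κ D i), IsOfFinAddOrder (tst E i q c) := fun c hc =>
    tor_iff h0 h hE hinj u l ξ hξ hc
  have hsup : ∀ c ∈ Z, ∀ p ∈ c.support, Monotone p.1 ∧ Blk κ p.1 p.2.1 := fun c hc p hp =>
    ⟨(hc.1.1 p hp).1, (mat_iff hinj).1 (hc.1.1 p hp).2.1⟩
  apply le_antisymm
  · -- upper bound
    let ψ : Z →+ (∀ i : Fin s, Fin (mlt κ D i) → G i) :=
      { toFun := fun c i j => ⟨tst E i (p i j) c.1, tst_mem c.2 i _⟩
        map_zero' := by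
          funext i j
          apply Subtype.ext
          exact map_zero _
        map_add' := by
          intro c c'
          funext i j
          apply Subtype.ext
          exact map_add _ _ _ }
    refine (rank_le (α.comp Z.subtype) ψ fun c hc => ?_).trans ((rank_pi_le s _).trans
      (Finset.sum_le_sum fun i _ => rank_fun_le _ _))
    change IsOfFinAddOrder (α c.1)
    rw [htor c.1 c.2]
    intro i q
    obtain ⟨n, b, hn, hq⟩ := hspan i q
    have h1 := tst_relation hinj hq c.1 (hsup c.1 c.2)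
    have h2 : ∀ j, tst E i (p i j) c.1 = 0 := fun j =>
      congrArg Subtype.val (congrFun (congrFun hc i) j)
    rw [isOfFinAddOrder_iff_zsmul_eq_zero]
    refine ⟨n, hn, h1.trans (Finset.sum_eq_zero fun j _ => ?_)⟩
    rw [h2 j]
    exact zsmul_zero _
  · -- lower bound
    choose S hS hli using fun i => exists_set_linearIndependent ℤ (G i)
    let I : Type := Σ i : Fin s, Fin (mlt κ D i) × S i
    let pt : ∀ t : I, Pts (prd E κ) := fun t x =>
      (p t.1 t.2.1).1.2.2 x • trk ((E t.1)⁄Qb) (prd E κ x) t.2.2.1.1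
    let v₀ : I → (Sy E κ D →₀ ℤ) := fun t =>
      Finsupp.single ((p t.1 t.2.1).1.1, (p t.1 t.2.1).1.2.1, pt t) 1 -
        Finsupp.single ((p t.1 t.2.1).1.1, (p t.1 t.2.1).1.2.1, 0) 1
    have hv₀ : ∀ t, v₀ t ∈ Z := by
      intro t
      refine ⟨⟨fun P hP => ?_, fun σ => ?_⟩, fun μ M hM => ?_⟩
      · rcases Finset.mem_union.1 (Finsupp.support_sub hP) with h1 | h1
        · rw [Finset.mem_singleton.1 (Finsupp.support_single_subset h1)]
          exact ⟨(p t.1 t.2.1).2.1, (mat_iff hinj).2 (p t.1 t.2.1).2.2.1,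
            fun x => zsmul_mem (trk_mem t.2.2.1.2.1) _⟩
        · rw [Finset.mem_singleton.1 (Finsupp.support_single_subset h1)]
          exact ⟨(p t.1 t.2.1).2.1, (mat_iff hinj).2 (p t.1 t.2.1).2.2.1, fun x => zero_mem _⟩
      · have h5 := (Finsupp.mapDomain.addMonoidHom (M := ℤ)
          (fun (p : Sy E κ D) => ((p.1, p.2.1, fun x => gal σ (p.2.2 x)) : Sy E κ D))).map_sub
            (Finsupp.single ((p t.1 t.2.1).1.1, (p t.1 t.2.1).1.2.1, pt t) (1 : ℤ))
            (Finsupp.single ((p t.1 t.2.1).1.1, (p t.1 t.2.1).1.2.1, 0) (1 : ℤ))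
        change Finsupp.mapDomain _ (v₀ t) = Finsupp.mapDomain _ _ - Finsupp.mapDomain _ _ at h5
        rw [h5, Finsupp.mapDomain_single, Finsupp.mapDomain_single]
        have h6 : (fun x => gal σ (pt t x)) = pt t := by
          funext x
          change gal σ (_ • _) = _ • _
          rw [map_zsmul, gal_trk (E t.1) (E (κ x)), t.2.2.1.2.2 σ]
        have h7 : (fun x : Fin r => gal σ ((0 : Pts (prd E κ)) x)) = 0 := by
          funext x
          exact map_zero _
        rw [h6, h7]
      · rw [Finsupp.sum_sub_index (fun _ _ _ => sub_mul _ _ _),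
          Finsupp.sum_single_index (zero_mul _), Finsupp.sum_single_index (zero_mul _), sub_self]
    have hlin : ∀ (i : Fin s) (N : Matrix (Fin r) (Fin D) ℤ) (w : Fin r → ℤ)
        (q : PP κ D i), LibMul34.kf (N, w) q.1.2 =
          ∑ x, w x * LibMul34.kf (N, Pi.single x 1) q.1.2 := fun i N w q =>
      LibCV66.kf_linear N w q.1.2
    have htz : ∀ (i : Fin s) (x : Fin r), trk (prd E κ x) ((E i)⁄Qb) 0 = 0 := by
      intro i x
      by_cases hx : prd E κ x = ((E i)⁄Qb)
      · rw [trk, dif_pos hx]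
        generalize ((E i)⁄Qb) = E' at hx
        subst hx
        rfl
      · exact trk_ne hx _
    have hval : ∀ (t : I) (i : Fin s) (q : PP κ D i), tst E i q (v₀ t) =
        ∑ x, LibMul34.kf ((p t.1 t.2.1).1.2.1, Pi.single x 1) q.1.2 •
          trk (prd E κ x) ((E i)⁄Qb) (pt t x) := by
      intro t i q
      rw [map_sub, tst_single, tst_single, one_zsmul, one_zsmul, det_bdet, det_bdet]
      have h1 : ∑ x, LibMul34.kf ((p t.1 t.2.1).1.2.1, Pi.single x 1) (q.1.2.1, q.1.2.2) •
          trk (prd E κ x) ((E i)⁄Qb) ((0 : Pts (prd E κ)) x) = 0 := by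
        refine Finset.sum_eq_zero fun x _ => ?_
        have h2 : trk (prd E κ x) ((E i)⁄Qb) ((0 : Pts (prd E κ)) x) = 0 := htz i x
        rw [h2]
        exact zsmul_zero _
      rw [h1, sub_zero]
    have hv₁ : ∀ (i : Fin s) (v : Fin (mlt κ D i) × S i) (q : PP κ D i),
        tst E i q (v₀ ⟨i, v⟩) = kp (p i v.1) q • v.2.1.1 := by
      rintro i ⟨m, y⟩ q
      rw [hval]
      have h2 : kp (p i m) q = ∑ x, (p i m).1.2.2 x *
          LibMul34.kf ((p i m).1.2.1, Pi.single x 1) q.1.2 := hlin i _ _ q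
      have h2' : kp (p i m) q • y.1.1 = ∑ x, ((p i m).1.2.2 x *
          LibMul34.kf ((p i m).1.2.1, Pi.single x 1) q.1.2) • y.1.1 := by
        rw [h2]
        exact sum_zsm _ _
      refine Eq.trans (Finset.sum_congr rfl fun x _ => ?_) h2'.symm
      by_cases hx : κ x = i
      · have h3 : trk (prd E κ x) ((E i)⁄Qb) (pt ⟨i, m, y⟩ x) =
            (p i m).1.2.2 x • y.1.1 := by
          subst hx
          change trk (prd E κ x) ((E (κ x))⁄Qb) (_ • trk ((E (κ x))⁄Qb) (prd E κ x) y.1.1) = _
          rw [trk_self, trk_self]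
        rw [h3, smul_smul]
        congr 1
        ring
      · have h3 : (p i m).1.2.2 x = 0 := (Subtype.property (p i m)).2.2 x hx
        have h4 : pt ⟨i, m, y⟩ x = 0 := by
          change (p i m).1.2.2 x • _ = _
          rw [h3]
          exact zero_zsmul _
        rw [h4, h3, zero_mul, htz i x]
        exact (zsmul_zero _).trans (zero_zsmul _).symm
    have hv₂ : ∀ (j i : Fin s), j ≠ i → ∀ (v : Fin (mlt κ D j) × S j) (q : PP κ D i),
        tst E i q (v₀ ⟨j, v⟩) = 0 := by
      rintro j i hji ⟨m, y⟩ q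
      rw [hval]
      refine Finset.sum_eq_zero fun x _ => ?_
      by_cases hx : κ x = i
      · have h3 : ((E j)⁄Qb) ≠ prd E κ x := fun h4 =>
          hji ((hinj (baseChange_injective h4)).trans hx)
        have h4 : pt ⟨j, m, y⟩ x = 0 := by
          change _ • trk ((E j)⁄Qb) (prd E κ x) _ = _
          rw [trk_ne h3]
          exact zsmul_zero _
        rw [h4, htz i x]
        exact zsmul_zero _
      · have h3 : prd E κ x ≠ ((E i)⁄Qb) := fun h4 => hx (hinj (baseChange_injective h4))
        rw [trk_ne h3]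
        exact zsmul_zero _
    have hli2 : LinearIndependent ℤ (fun t : I =>
        (⟨α (v₀ t), ⟨⟨v₀ t, hv₀ t⟩, rfl⟩⟩ : (α.comp Z.subtype).range)) := by
      rw [linearIndependent_iff']
      intro T n hn t ht
      have h1 : α (∑ t ∈ T, n t • v₀ t) = 0 := by
        rw [map_sum]
        have h2 := congrArg Subtype.val hn
        rw [AddSubgroup.val_finsetSum] at h2
        rw [AddSubgroup.coe_zero] at h2
        rw [← h2]
        refine Finset.sum_congr rfl fun t _ => ?_
        rw [map_zsmul]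
        rfl
      obtain ⟨i, m₀, y₀⟩ := t
      let T' : Finset (Fin (mlt κ D i) × S i) :=
        T.preimage (fun v => (⟨i, v⟩ : I)) (fun v _ v' _ hv => eq_of_heq (Sigma.mk.inj hv).2)
      have h3 : ∀ q : PP κ D i, IsOfFinAddOrder
          (∑ v ∈ T', (n ⟨i, v⟩ * kp (p i v.1) q) • v.2.1.1) := by
        intro q
        have h4 := (htor _ (sum_mem fun t _ => zsmul_mem (hv₀ t) (n t))).1
          (by rw [h1]; exact IsOfFinAddOrder.zero) i q
        rw [map_sum] at h4
        have h5 : ∑ v ∈ T', (n ⟨i, v⟩ * kp (p i v.1) q) • v.2.1.1 =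
            ∑ t ∈ T, tst E i q (n t • v₀ t) := by
          have h6 : ∀ v : Fin (mlt κ D i) × S i, (n ⟨i, v⟩ * kp (p i v.1) q) • v.2.1.1 =
              tst E i q (n ⟨i, v⟩ • v₀ ⟨i, v⟩) := by
            intro v
            rw [map_zsmul, hv₁ i v q, mul_smul]
          rw [Finset.sum_congr rfl fun v _ => h6 v]
          rw [Finset.sum_preimage (fun v => (⟨i, v⟩ : I)) T _ (fun t => tst E i q (n t • v₀ t))]
          rintro ⟨j, v⟩ hv hv'
          have h7 : j ≠ i := by
            rintro rfl
            exact hv' ⟨v, rfl⟩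
          rw [map_zsmul, hv₂ j i h7]
          exact zsmul_zero _
        rw [h5]
        exact h4
      have hp : ∀ c : Fin (mlt κ D i) → ℤ, (∀ q, ∑ j, c j * kp (p i j) q = 0) → ∀ j, c j = 0 := by
        intro c hc j
        have h8 : ∑ j', c j' * (if j = j' then N i else 0) = 0 := by
          have h9 : ∀ j', c j' * (if j = j' then N i else 0) =
              ∑ t, a i j t * (c j' * kp (p i j') (p i t)) := by
            intro j'
            have h10 : (if j = j' then N i else 0) = ∑ t, a i j t * kp (p i j') (p i t) := by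
              rw [hdual i j j']
              by_cases hjj : j = j'
              · rw [if_pos hjj, if_pos hjj]
              · rw [if_neg hjj, if_neg hjj]
            rw [h10, Finset.mul_sum]
            exact Finset.sum_congr rfl fun t _ => by ring
          rw [Finset.sum_congr rfl fun j' _ => h9 j', Finset.sum_comm]
          refine Finset.sum_eq_zero fun t _ => ?_
          rw [← Finset.mul_sum, hc, mul_zero]
        rw [Finset.sum_eq_single j (fun j' _ hj' => by rw [if_neg (Ne.symm hj'), mul_zero])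
          (fun h9 => absurd (Finset.mem_univ j) h9), if_pos rfl] at h8
        exact (mul_eq_zero.1 h8).resolve_right (hN i)
      exact LibCV66.lin_step (hli i) (fun j q => kp (p i j) q) hp T' (fun v => n ⟨i, v⟩) h3
        (m₀, y₀) (Finset.mem_preimage.2 ht)
    have h16 := hli2.cardinal_le_rank
    rw [mk_sig] at h16
    refine le_trans (le_of_eq (Finset.sum_congr rfl fun i _ => ?_)) h16
    rw [Cardinal.mk_prod, Cardinal.lift_id, Cardinal.lift_id, Cardinal.mk_fin, hS]

end Pool.Agent.LibEP66
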